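import Pool.Agent.H33.M5.N1f
import Pool.Agent.H48.M5.Stmts

/-!
# Prediction lemma N1
-/

set_option autoImplicit false

namespace Pool.M5

open Finset Real
open Pool.Agent.H49.Ent Pool.Agent.H32.Dense Pool.STK Pool.KAF Pool.OC

namespace NP

/-- The sums of N1. -/
lemma arith {K1 ε u a₀ Lg L3 X n M S r₀ Sg Sn : ℝ} (hK1 : 1 ≤ K1) (hε : 0 < ε)
    (hu : 0 < u) (ha : a₀ = ε / (10 * K1 ^ 2)) (hLg : 0 < Lg) (hL3 : L3 ≤ 2 * Lg)
    (hM0 : 0 ≤ M) (hS : S ≤ X) (hMr : M * r₀ ≤ X) (hn : n ≤ ε / (20 * K1) * X)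
    (hr : 30 * K1 / ε ≤ r₀) (hX : 20 * K1 * (r₀ + 1) / ε ≤ X)
    (hSn : Sn ≤ S * (ε / (20 * K1)) + 2 / u * (S * (ε * u / (40 * K1)) +
      a₀⁻¹ * (ε * u * a₀ / (40 * K1) * X)))
    (hSg : Sg ≤ 2 * Sn + 4 * (ε / (40 * K1)) * S) :
    K1 * ((r₀ + 2) * Lg) + K1 * ((2 * n + r₀) * Lg) +
      M * (Lg + K1 * L3 + K1 * a₀ * (K1 * (r₀ * Lg))) + K1 * Lg * Sg ≤ ε * X * Lg := by
  have hK0 : 0 < K1 := by linarith only [hK1]
  have ha0 : 0 < a₀ := by rw [ha]; positivity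
  have hr0 : 0 < r₀ := lt_of_lt_of_le (by positivity) hr
  have hX0 : 0 ≤ X := le_trans (by positivity) hX
  -- the first terms
  have t1 : K1 * (2 * r₀ + 2) ≤ ε / 10 * X := by
    rw [div_le_iff₀ hε] at hX
    linarith only [hX]
  have t2 : K1 * (2 * n) ≤ ε / 10 * X := by
    calc K1 * (2 * n) ≤ K1 * (2 * (ε / (20 * K1) * X)) := by
          refine mul_le_mul_of_nonneg_left ?_ hK0.le
          linarith only [hn]
      _ = ε / 10 * X := by field_simp; ring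
  have t3 : 3 * K1 * M ≤ ε / 10 * X := by
    rw [div_le_iff₀ hε] at hr
    calc 3 * K1 * M = (30 * K1) * M / 10 := by ring
      _ ≤ (r₀ * ε) * M / 10 := by
          have := mul_le_mul_of_nonneg_right hr hM0
          linarith only [this]
      _ = ε / 10 * (M * r₀) := by ring
      _ ≤ ε / 10 * X := mul_le_mul_of_nonneg_left hMr (by positivity)
  have t4 : K1 * a₀ * (K1 * (M * r₀)) ≤ ε / 10 * X := by
    calc K1 * a₀ * (K1 * (M * r₀)) ≤ K1 * a₀ * (K1 * X) := by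
          refine mul_le_mul_of_nonneg_left ?_ (by positivity)
          exact mul_le_mul_of_nonneg_left hMr hK0.le
      _ = ε / 10 * X := by
          rw [ha]
          field_simp
  have t5 : K1 * Sg ≤ 4 * ε / 10 * X := by
    have e1 : S * (ε / (20 * K1)) ≤ X * (ε / (20 * K1)) :=
      mul_le_mul_of_nonneg_right hS (by positivity)
    have e2 : 2 / u * (S * (ε * u / (40 * K1)) + a₀⁻¹ * (ε * u * a₀ / (40 * K1) * X)) ≤
        2 / u * (X * (ε * u / (40 * K1)) + a₀⁻¹ * (ε * u * a₀ / (40 * K1) * X)) := by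
      refine mul_le_mul_of_nonneg_left ?_ (by positivity)
      have := mul_le_mul_of_nonneg_right hS (show 0 ≤ ε * u / (40 * K1) by positivity)
      linarith only [this]
    have e3 : 2 / u * (X * (ε * u / (40 * K1)) + a₀⁻¹ * (ε * u * a₀ / (40 * K1) * X)) =
        X * (ε / (10 * K1)) := by
      field_simp
      ring
    have e4 : 4 * (ε / (40 * K1)) * S ≤ 4 * (ε / (40 * K1)) * X :=
      mul_le_mul_of_nonneg_left hS (by positivity)
    have e5 : Sg ≤ 2 * (X * (ε / (20 * K1)) + X * (ε / (10 * K1))) +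
        4 * (ε / (40 * K1)) * X := by linarith only [hSn, hSg, e1, e2, e3, e4]
    calc K1 * Sg ≤ K1 * (2 * (X * (ε / (20 * K1)) + X * (ε / (10 * K1))) +
        4 * (ε / (40 * K1)) * X) := mul_le_mul_of_nonneg_left e5 hK0.le
      _ = 4 * ε / 10 * X := by field_simp; ring
  exact by
   have t6 : M * (Lg + K1 * L3) ≤ 3 * K1 * M * Lg := by
     have : Lg + K1 * L3 ≤ 3 * K1 * Lg := by
       have h1 := mul_le_mul_of_nonneg_left hL3 hK0.le
       nlinarith only [h1, hK1, hLg]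
     have := mul_le_mul_of_nonneg_left this hM0
     linarith only [this]
   have hsum : K1 * (2 * r₀ + 2) + K1 * (2 * n) + 3 * K1 * M + K1 * a₀ * (K1 * (M * r₀)) +
       K1 * Sg ≤ ε * X := by
     have : 0 ≤ ε * X := by positivity
     linarith only [t1, t2, t3, t4, t5, this]
   have hfin := mul_le_mul_of_nonneg_right hsum hLg.le
   nlinarith only [t6, hfin]

/-- N1 for at least one unknown number. -/
lemma n1_aux (hR : RROWStmt) (K A : ℕ) (c ε : ℝ) (hc : 0 < c) (hε : 0 < ε) (hε1 : ε ≤ 1) :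
    ∃ (κ π₀ ι ε₀ : ℝ) (j₀ X₀ : ℕ), 0 < κ ∧ κ ≤ 1 ∧ 0 < π₀ ∧ 0 < ι ∧ 0 < ε₀ ∧
      ∀ d : NDat (K + 1), d.OK A → X₀ ≤ d.X → d.H1 ι j₀ ε₀ → d.toR.H2 ι →
        d.toR.H5 c κ π₀ ∅ → H d.P (fun ω => d.v (d.L ω)) ≤ ε * d.X * Real.log 2 := by
  obtain ⟨u, hu, -, hR1⟩ := hR A c hc
  have hK1 : (1 : ℝ) ≤ (K : ℝ) + 1 := by
    have : (0 : ℝ) ≤ K := Nat.cast_nonneg K
    linarith only
  have hK0 : (0 : ℝ) < (K : ℝ) + 1 := by linarith only
  obtain ⟨a₀, ha⟩ : ∃ a₀ : ℝ, a₀ = ε / (10 * ((K : ℝ) + 1) ^ 2) := ⟨_, rfl⟩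
  have ha0 : 0 < a₀ := by rw [ha]; positivity
  obtain ⟨j₀, hj⟩ : ∃ j₀ : ℕ, 16 * (K + 1) ≤ 2 ^ j₀ := ⟨16 * (K + 1), Nat.lt_two_pow_self.le⟩
  obtain ⟨B, hB1, hB⟩ := gd_prob K j₀ hj
  obtain ⟨r₀, hr⟩ : ∃ r₀ : ℕ, 30 * ((K : ℝ) + 1) / ε ≤ r₀ := ⟨_, Nat.le_ceil _⟩
  have hr1 : 1 ≤ r₀ := by
    have h1 : (0 : ℝ) < r₀ := lt_of_lt_of_le (by positivity) hr
    have h2 : 0 < r₀ := by exact_mod_cast h1
    omega
  obtain ⟨k'', htb⟩ := tb (ε * u / (40 * ((K : ℝ) + 1))) (by positivity)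
  obtain ⟨k₁, hk₁⟩ : ∃ k₁ : ℕ, B * 2 ^ (k'' + r₀) < 2 ^ k₁ :=
    pow_unbounded_of_one_lt _ (by norm_num)
  obtain ⟨e, he⟩ : ∃ e : ℝ, e = ε * u * a₀ / (40 * ((K : ℝ) + 1)) := ⟨_, rfl⟩
  have he0 : 0 < e := by rw [he]; positivity
  have hk : (K + 1) ^ 2 ≤ 2 ^ ((K + 1) ^ 2) := Nat.lt_two_pow_self.le
  obtain ⟨δ, hδ, hR2⟩ := hR1 ((K + 1) ^ 2) k₁ (2 ^ (K + 1)) e he0
  obtain ⟨κ₂, hκ₂⟩ : ∃ κ₂ : ℝ, κ₂ = ε / (20 * ((K : ℝ) + 1)) := ⟨_, rfl⟩
  have hκ₂0 : 0 < κ₂ := by rw [hκ₂]; positivity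
  have hκ₂1 : κ₂ ≤ 1 / 20 := by
    rw [hκ₂, div_le_div_iff₀ (by positivity) (by norm_num)]
    linarith only [hε1]
  obtain ⟨π₀, X₁, hπ₀, hR3⟩ := hR2 (κ₂ / 16) κ₂ (by positivity) (by linarith only [hκ₂0, hκ₂1]) hκ₂0
  obtain ⟨ιt, Xt, hιt, htb⟩ := htb κ₂ hκ₂0
  obtain ⟨Xr, hXr⟩ : ∃ Xr : ℕ, 20 * ((K : ℝ) + 1) * ((r₀ : ℝ) + 1) / ε + 16 / κ₂ +
    4 * ((j₀ : ℝ) + 3) / κ₂ + ((r₀ : ℝ) + 1) / κ₂ ≤ Xr := ⟨_, Nat.le_ceil _⟩
  exact by
   refine ⟨κ₂ / 16, π₀, min (δ / 2) ιt, ε / (40 * ((K : ℝ) + 1)), j₀, X₁ + Xt + Xr,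
     by positivity, by linarith only [hκ₂0, hκ₂1], hπ₀, lt_min (by positivity) hιt, by positivity, ?_⟩
   intro d hOK hX h1 h2 h5
   have hP := hOK.law
   have hX0 : (0 : ℝ) ≤ d.X := Nat.cast_nonneg _
   have hXr' : (Xr : ℝ) ≤ d.X := by
     have : Xr ≤ d.X := by omega
     exact_mod_cast this
   have hc1 : 0 ≤ 20 * ((K : ℝ) + 1) * ((r₀ : ℝ) + 1) / ε := by positivity
   have hc2 : 0 ≤ 16 / κ₂ := by positivity
   have hc3 : 0 ≤ 4 * ((j₀ : ℝ) + 3) / κ₂ := by positivity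
   have hc4 : 0 ≤ ((r₀ : ℝ) + 1) / κ₂ := by positivity
   have x1 : 20 * ((K : ℝ) + 1) * ((r₀ : ℝ) + 1) / ε ≤ d.X := by linarith only [hXr, hXr', hc2, hc3, hc4]
   have x2 : 16 ≤ d.X * κ₂ := by
     rw [← div_le_iff₀ hκ₂0]
     linarith only [hXr, hXr', hc1, hc3, hc4]
   have x3 : 4 * ((j₀ : ℝ) + 3) ≤ d.X * κ₂ := by
     rw [← div_le_iff₀ hκ₂0]
     linarith only [hXr, hXr', hc1, hc2, hc4]
   have x4 : (r₀ : ℝ) + 1 ≤ d.X * κ₂ := by
     rw [← div_le_iff₀ hκ₂0]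
     linarith only [hXr, hXr', hc1, hc2, hc3]
   obtain ⟨n, hn⟩ : ∃ n : ℕ, n = ⌊κ₂ * d.X⌋₊ := ⟨_, rfl⟩
   obtain ⟨h, hh⟩ : ∃ h : ℕ, h = ⌊κ₂ / 16 * d.X⌋₊ := ⟨_, rfl⟩
   have hn1 : (n : ℝ) ≤ κ₂ * d.X := by rw [hn]; exact Nat.floor_le (by positivity)
   have hn2 : κ₂ * d.X < n + 1 := by rw [hn]; exact Nat.lt_floor_add_one _
   have hh1 : (h : ℝ) ≤ κ₂ / 16 * d.X := by rw [hh]; exact Nat.floor_le (by positivity)
   have hh2 : 1 ≤ h := by
     rw [hh]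
     refine Nat.le_floor ?_
     push_cast
     linarith only [x2]
   exact by
    have hnr : r₀ ≤ n := by
      have : (r₀ : ℝ) < n + 1 := by linarith only [hκ₂0, hκ₂1, x4, hn2]
      have : (r₀ : ℝ) < ((n + 1 : ℕ) : ℝ) := by push_cast; linarith only [hκ₂0, hκ₂1, x4, hn2]
      have : r₀ < n + 1 := by exact_mod_cast this
      omega
    have hnh : 2 * (j₀ + 2) + 4 * h ≤ n := by
      have : ((2 * (j₀ + 2) + 4 * h : ℕ) : ℝ) < ((n + 1 : ℕ) : ℝ) := by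
        push_cast
        linarith only [hκ₂0, hκ₂1, x2, x3, hn2, hh1]
      have : 2 * (j₀ + 2) + 4 * h < n + 1 := by exact_mod_cast this
      omega
    have hnX : 20 * n ≤ d.X := by
      have : ((20 * n : ℕ) : ℝ) ≤ (d.X : ℝ) := by
        push_cast
        nlinarith only [hn1, hκ₂1]
      exact_mod_cast this
    -- the rows
    have hMI : Pool.KVA.MI d.P d.T d.L (fun _ => ()) ≤ min (δ / 2) ιt * d.X := h1.1
    have hιδ : 2 * min (δ / 2) ιt ≤ δ := by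
      have := min_le_left (δ / 2) ιt
      linarith only [this]
    have hιt' : min (δ / 2) ιt ≤ ιt := min_le_right _ _
    obtain ⟨J, hJ1, hRow⟩ := hR3 d.toR ∅ ⟨hOK.law, hOK.hN, hOK.hZ⟩ (by
        show X₁ ≤ d.X
        omega) (by
        refine le_trans (show _ ≤ min (δ / 2) ιt * (d.toR.X : ℝ) from h2) ?_
        refine mul_le_mul_of_nonneg_right ?_ (Nat.cast_nonneg _)
        linarith only [hδ, hιδ]) h5
    have hJ1' : d.toR.J1 J h u κ₂ ∅ := by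
      rw [hh]
      exact hJ1
    exact by
     have hTB := htb (K + 1) d A hOK (by omega)
       (hMI.trans (mul_le_mul_of_nonneg_right hιt' hX0))
       (le_trans (by
         refine mul_le_mul_of_nonneg_right ?_ (Real.log_nonneg (by norm_num))
         refine mul_le_mul_of_nonneg_right ?_ hX0
         linarith only [hιt']) h1.2.1) (j₀ + 2) (by
           rw [← hn]
           omega) (by
           rw [← hn]
           omega)
     rw [← hn] at hTB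
     have hRow' : ∀ i < n, ∑ s ∈ range d.X,
         Ex (Qp d i) (Set.indicator {w | s + i ∈ J w.1} (bad d s i k₁)) ≤ e * d.X := fun i _ =>
       rowN d hOK hιδ hδ.le hMI J _ k₁ hk hRow i
     obtain ⟨M, hMd⟩ : ∃ M : ℕ, M = (d.X - 2 * n) / r₀ := ⟨_, rfl⟩
     have hM1 : M * r₀ ≤ d.X - 2 * n := by rw [hMd]; exact Nat.div_mul_le_self _ _
     have hM2 : d.X - 2 * n < M * r₀ + r₀ := by rw [hMd]; exact Nat.lt_div_mul_add (by omega)
     have hnice := nice_sum d hP J h n (j₀ + 2) k₁ k'' (M * r₀) hh2 hu ha0 hnh (by omega) hJ1'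
       hTB hRow'
     have hgd : ∑ s ∈ range (M * r₀), Pr d.P {ω | ¬ Gd d s r₀ (((K : ℝ) + 1) * a₀) ω} ≤
         2 * ∑ s ∈ range (M * r₀), Pr d.P {ω | ¬ NiceP d (j₀ + 2) n k'' k₁ a₀ s ω} +
           4 * (ε / (40 * ((K : ℝ) + 1))) * (M * r₀ : ℕ) := by
       calc ∑ s ∈ range (M * r₀), Pr d.P {ω | ¬ Gd d s r₀ (((K : ℝ) + 1) * a₀) ω} ≤
             ∑ s ∈ range (M * r₀), (2 * Pr d.P {ω | ¬ NiceP d (j₀ + 2) n k'' k₁ a₀ s ω} +
               4 * (ε / (40 * ((K : ℝ) + 1)))) :=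
             Finset.sum_le_sum fun s _ => hB d A hOK s r₀ k₁ k'' n a₀ _ hk₁.le h1.2.2
         _ = _ := by
             rw [Finset.sum_add_distrib, ← Finset.mul_sum, Finset.sum_const, Finset.card_range,
               nsmul_eq_mul]
             ring
     exact by
      have htele := tele d hOK (M := M) (R := 2 * n + r₀) (a := ((K : ℝ) + 1) * a₀) hr1 (by omega)
        (by omega) (by positivity)
      have hl2 : 0 < Real.log 2 := Real.log_pos (by norm_num)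
      have hl3 : Real.log 3 ≤ 2 * Real.log 2 := by
        have h3 : Real.log 3 ≤ Real.log (2 ^ 2) := Real.log_le_log (by norm_num) (by norm_num)
        rw [Real.log_pow] at h3
        exact_mod_cast h3
      have hMX : ((M * r₀ : ℕ) : ℝ) ≤ (d.X : ℝ) := by
        have : M * r₀ ≤ d.X := by omega
        exact_mod_cast this
      have hMX' : (M : ℝ) * r₀ ≤ d.X := by
        have := hMX
        push_cast at this
        exact this
      have key := arith (K1 := (K : ℝ) + 1) (ε := ε) (u := u) (a₀ := a₀) (Lg := Real.log 2)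
        (L3 := Real.log 3) (X := d.X) (n := n) (M := M) (S := ((M * r₀ : ℕ) : ℝ)) (r₀ := r₀)
        (Sg := ∑ s ∈ range (M * r₀), Pr d.P {ω | ¬ Gd d s r₀ (((K : ℝ) + 1) * a₀) ω})
        (Sn := ∑ s ∈ range (M * r₀), Pr d.P {ω | ¬ NiceP d (j₀ + 2) n k'' k₁ a₀ s ω})
        hK1 hε hu ha hl2 hl3 (Nat.cast_nonneg _) hMX hMX' (by rw [← hκ₂]; exact hn1) hr x1
        (by rw [← hκ₂, ← he]; exact hnice) hgd
      refine htele.trans (le_trans (le_of_eq ?_) key)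
      push_cast
      ring

end NP

/-- **N1.** -/
theorem n1_thm (hR : RROWStmt) : N1Stmt := by
  intro K A c ε hc hε
  rcases K with _ | K
  · refine ⟨1, 1, 1, 1, 0, 0, one_pos, le_rfl, one_pos, one_pos, one_pos,
      fun d hOK _ _ _ _ => ?_⟩
    have h := NP.Hc_base d hOK d.X
    rw [NP.Hc_top] at h
    push_cast at h
    rw [zero_mul] at h
    refine h.trans ?_
    have hl2 : 0 < Real.log 2 := Real.log_pos (by norm_num)
    positivity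
  · obtain ⟨κ, π₀, ι, ε₀, j₀, X₀, h1, h2, h3, h4, h5, h⟩ :=
      NP.n1_aux hR K A c (min ε 1) hc (lt_min hε one_pos) (min_le_right _ _)
    refine ⟨κ, π₀, ι, ε₀, j₀, X₀, h1, h2, h3, h4, h5, fun d a1 a2 a3 a4 a5 => ?_⟩
    refine (h d a1 a2 a3 a4 a5).trans ?_
    have hl2 : 0 < Real.log 2 := Real.log_pos (by norm_num)
    refine mul_le_mul_of_nonneg_right ?_ hl2.le
    exact mul_le_mul_of_nonneg_right (min_le_left _ _) (Nat.cast_nonneg _)

end Pool.M5
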