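import Pool.Agent.H33.KAL.RMG
import Pool.Agent.H20.KAL.TAY

/-!
# Prediction lemma N1: polynomials and counting
-/

set_option autoImplicit false

namespace Pool.M5.NP

open Finset Real

/-- Coefficients from the values at separated points. -/
lemma coef_sep (K : ℕ) (ρ : ℝ) (hρ : 0 < ρ) : ∃ B : ℝ, 1 ≤ B ∧ ∀ (q : Polynomial ℝ)
    (ξ : Fin (K + 1) → ℝ) (m : ℝ), q.natDegree ≤ K → (∀ i, 0 ≤ ξ i ∧ ξ i ≤ 1) →
    (∀ i j, i ≠ j → ρ ≤ |ξ i - ξ j|) → (∀ i, |q.eval (ξ i)| ≤ m) →
    ∀ j, |q.coeff j| ≤ B * m := by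
  obtain ⟨C, hC0, hC⟩ := Pool.KAL.TAY.coef_bound K
  refine ⟨C * (((K : ℝ) + 1) * (1 / ρ) ^ K) + 1, by
    have : 0 ≤ C * (((K : ℝ) + 1) * (1 / ρ) ^ K) := by positivity
    linarith, ?_⟩
  intro q ξ m hq hξ hsep hval j
  have hm : 0 ≤ m := (abs_nonneg _).trans (hval 0)
  have h1 : ∀ t : ℝ, 0 ≤ t → t ≤ 1 → |q.eval t| ≤ ((K : ℝ) + 1) * (1 / ρ) ^ K * m := by
    intro t h0 h1
    refine Pool.KAL.RMG.lagrange_bound K q ξ t 1 ρ m hq hρ hsep (fun i => ?_) hval
    rw [abs_le]
    constructor <;> linarith [(hξ i).1, (hξ i).2]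
  by_cases hj : j ≤ K
  · refine (hC q _ hq h1 j hj).trans ?_
    nlinarith
  · rw [Polynomial.coeff_eq_zero_of_natDegree_lt (by omega), abs_zero]
    positivity

/-- Mean value theorem for a polynomial, at one pair. -/
lemma mvt (q : Polynomial ℝ) {x y m : ℝ} (hxy : x ≠ y) (h : |q.eval y - q.eval x| ≤ m * |y - x|) :
    ∃ ξ : ℝ, |ξ - x| ≤ |y - x| ∧ min x y ≤ ξ ∧ ξ ≤ max x y ∧ |q.derivative.eval ξ| ≤ m := by
  have key : ∀ a b : ℝ, a < b → ∃ c ∈ Set.Ioo a b,
      q.derivative.eval c = (q.eval b - q.eval a) / (b - a) := by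
    intro a b hab
    obtain ⟨c, hc, hc2⟩ := exists_deriv_eq_slope (fun t => q.eval t) hab
      q.continuous.continuousOn q.differentiable.differentiableOn
    exact ⟨c, hc, by rw [← hc2, Polynomial.deriv]⟩
  rcases lt_or_gt_of_ne hxy with h1 | h1
  · obtain ⟨c, hc, hc2⟩ := key x y h1
    refine ⟨c, ?_, ?_, ?_, ?_⟩
    · rw [abs_of_pos (by linarith [hc.1]), abs_of_pos (by linarith)]
      linarith [hc.2]
    · rw [min_eq_left h1.le]
      exact hc.1.le
    · rw [max_eq_right h1.le]
      exact hc.2.le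
    · rw [hc2, abs_div, div_le_iff₀ (abs_pos.2 (by linarith))]
      exact h
  · obtain ⟨c, hc, hc2⟩ := key y x h1
    refine ⟨c, ?_, ?_, ?_, ?_⟩
    · rw [abs_of_neg (by linarith [hc.2]), abs_of_neg (by linarith)]
      linarith [hc.1]
    · rw [min_eq_right h1.le]
      exact hc.1.le
    · rw [max_eq_left h1.le]
      exact hc.2.le
    · rw [hc2, abs_div, div_le_iff₀ (abs_pos.2 (by linarith)), abs_sub_comm (q.eval x),
        abs_sub_comm x y]
      exact h

/-- Unknown numbers from the forms of separated pairs. -/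
lemma mv_step (K k' : ℕ) : ∃ B : ℝ, 1 ≤ B ∧ ∀ (w x y : Fin (K + 1) → ℝ) (m : ℝ),
    (∀ p, 0 ≤ x p ∧ x p ≤ 1) → (∀ p, 0 ≤ y p ∧ y p ≤ 1) →
    (∀ p q, p ≠ q → 1 / 2 ^ k' ≤ |x p - x q|) → (∀ p, |y p - x p| ≤ 1 / 2 ^ (k' + 2)) →
    (∀ p, x p ≠ y p) →
    (∀ p, |∑ j : Fin (K + 1), w j * (y p ^ (j.val + 1) - x p ^ (j.val + 1))| ≤
      m * |y p - x p|) → ∀ j, |w j| ≤ B * m := by
  obtain ⟨B, hB1, hB⟩ := coef_sep K (1 / 2 ^ (k' + 1)) (by positivity)
  refine ⟨B, hB1, ?_⟩
  intro w x y m hx hy hsep hyx hne hform j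
  set q : Polynomial ℝ := ∑ j : Fin (K + 1), Polynomial.monomial (j.val + 1) (w j) with hq
  have hqe : ∀ t, q.eval t = ∑ j : Fin (K + 1), w j * t ^ (j.val + 1) := by
    intro t
    rw [hq, Polynomial.eval_finsetSum]
    refine Finset.sum_congr rfl fun j _ => ?_
    rw [Polynomial.eval_monomial]
  have h1 : ∀ p, ∃ ξ : ℝ, |ξ - x p| ≤ |y p - x p| ∧ min (x p) (y p) ≤ ξ ∧
      ξ ≤ max (x p) (y p) ∧ |q.derivative.eval ξ| ≤ m := by
    intro p
    refine mvt q (hne p) ?_
    rw [hqe, hqe, ← Finset.sum_sub_distrib]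
    simp only [← mul_sub]
    exact hform p
  choose ξ hξ1 hξ2 hξ3 hξ4 using h1
  have hdeg : q.derivative.natDegree ≤ K := by
    have h2 : q.natDegree ≤ K + 1 := by
      rw [hq]
      refine Polynomial.natDegree_sum_le_of_forall_le _ _ fun i _ => ?_
      refine (Polynomial.natDegree_monomial_le _).trans ?_
      have := i.2
      omega
    have h3 := Polynomial.natDegree_derivative_le q
    omega
  have h5 := hB q.derivative ξ m hdeg
    (fun p => ⟨(le_min (hx p).1 (hy p).1).trans (hξ2 p), (hξ3 p).trans (max_le (hx p).2 (hy p).2)⟩)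
    (fun p r hpr => by
      have e1 := hsep p r hpr
      have e2 := (hξ1 p).trans (hyx p)
      have e3 := (hξ1 r).trans (hyx r)
      have e4 : |x p - x r| ≤ |ξ p - ξ r| + |ξ p - x p| + |ξ r - x r| := by
        have e5 : x p - x r = (ξ p - ξ r) - (ξ p - x p) + (ξ r - x r) := by ring
        rw [e5]
        refine (abs_add_le _ _).trans ?_
        have := abs_sub (ξ p - ξ r) (ξ p - x p)
        linarith
      have e6 : (1 : ℝ) / 2 ^ (k' + 1) + 2 * (1 / 2 ^ (k' + 2)) = 1 / 2 ^ k' := by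
        rw [pow_succ, pow_succ, pow_succ]
        field_simp
        norm_num
      linarith) hξ4 j.val
  have h6 : q.derivative.coeff j.val = w j * (j.val + 1) := by
    rw [Polynomial.coeff_derivative, hq, Polynomial.finsetSum_coeff]
    congr 1
    rw [Finset.sum_eq_single j]
    · rw [Polynomial.coeff_monomial, if_pos rfl]
    · intro i _ hi
      rw [Polynomial.coeff_monomial, if_neg]
      intro h7
      exact hi (Fin.ext (by omega))
    · intro h
      exact absurd (Finset.mem_univ j) h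
  rw [h6, abs_mul] at h5
  have h7 : (1 : ℝ) ≤ |(j.val : ℝ) + 1| := by
    rw [abs_of_nonneg (by positivity)]
    have : (0 : ℝ) ≤ j.val := by positivity
    linarith
  calc |w j| = |w j| * 1 := (mul_one _).symm
    _ ≤ |w j| * |(j.val : ℝ) + 1| := mul_le_mul_of_nonneg_left h7 (abs_nonneg _)
    _ ≤ B * m := h5

/-- Separated elements of a finite set of integers. -/
lemma pick (A : Finset ℤ) (K : ℕ) (h : 2 * K ≤ A.card) : ∃ f : Fin K → ℤ, (∀ i, f i ∈ A) ∧
    ∀ i j, i ≠ j → 2 ≤ |f i - f j| := by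
  classical
  have key : ∀ (c : ℤ), K ≤ (A.filter fun a => a % 2 = c).card → ∃ f : Fin K → ℤ,
      (∀ i, f i ∈ A) ∧ ∀ i j, i ≠ j → 2 ≤ |f i - f j| := by
    intro c hc
    obtain ⟨S, hS, hSc⟩ := Finset.exists_subset_card_eq hc
    refine ⟨fun i => S.orderEmbOfFin hSc i, fun i => ?_, fun i j hij => ?_⟩
    · exact (Finset.mem_filter.1 (hS (Finset.orderEmbOfFin_mem S hSc i))).1
    · have h1 := (Finset.mem_filter.1 (hS (Finset.orderEmbOfFin_mem S hSc i))).2
      have h2 := (Finset.mem_filter.1 (hS (Finset.orderEmbOfFin_mem S hSc j))).2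
      have h3 : S.orderEmbOfFin hSc i ≠ S.orderEmbOfFin hSc j := fun h =>
        hij ((S.orderEmbOfFin hSc).injective h)
      rcases le_total (S.orderEmbOfFin hSc i - S.orderEmbOfFin hSc j) 0 with h4 | h4
      · rw [abs_of_nonpos h4]
        omega
      · rw [abs_of_nonneg h4]
        omega
  have h1 : (A.filter fun a => a % 2 = 0).card + (A.filter fun a => a % 2 = 1).card = A.card := by
    rw [← Finset.card_union_of_disjoint]
    · congr 1
      ext a
      simp only [Finset.mem_union, Finset.mem_filter]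
      constructor
      · rintro (h | h) <;> exact h.1
      · intro ha
        rcases Int.emod_two_eq_zero_or_one a with h2 | h2
        · exact Or.inl ⟨ha, h2⟩
        · exact Or.inr ⟨ha, h2⟩
    · rw [Finset.disjoint_left]
      intro a h2 h3
      have := (Finset.mem_filter.1 h2).2
      have := (Finset.mem_filter.1 h3).2
      omega
  by_cases h2 : K ≤ (A.filter fun a => a % 2 = 0).card
  · exact key 0 h2
  · exact key 1 (by omega)

open Classical in
/-- Many heavy rows in every long interval. -/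
lemma count_rows (J₀ : Set ℕ) {X n h i₀ s : ℕ} {u : ℝ} (h1 : 1 ≤ h) (hu : 0 ≤ u)
    (hJ : ∀ j, (j + 2) * h ≤ X →
      u * h ≤ (Set.ncard {r | r ∈ J₀ ∧ j * h ≤ r ∧ r < (j + 1) * h} : ℝ))
    (hn : 2 * i₀ + 4 * h ≤ n) (hX : s + n + 2 * h ≤ X) :
    u * n / 2 ≤ (((Finset.Ico i₀ n).filter fun i => s + i ∈ J₀).card : ℝ) := by
  set T : ℕ → ℕ → ℕ := fun a b => ((Finset.Ico a b).filter fun r => r ∈ J₀).card with hT
  have hblock : ∀ j, (j + 2) * h ≤ X → u * h ≤ (T (j * h) ((j + 1) * h) : ℝ) := by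
    intro j hj
    refine (hJ j hj).trans (le_of_eq ?_)
    rw [hT]
    simp only
    rw [← Set.ncard_coe_finset]
    congr 2
    ext r
    simp only [Set.mem_ofPred_eq, Finset.coe_filter, Finset.mem_Ico]
    tauto
  have hsum : ∀ a m, (a + m + 1) * h ≤ X → u * (m * h) ≤ (T (a * h) ((a + m) * h) : ℝ) := by
    intro a m
    induction m with
    | zero =>
      intro _
      simp
    | succ m ih =>
      intro hm
      have e0 : (a + m + 1) * h ≤ (a + (m + 1) + 1) * h := Nat.mul_le_mul_right h (by omega)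
      have e1 := ih (e0.trans hm)
      have e2 := hblock (a + m) (by
        have : (a + m + 2) * h = (a + (m + 1) + 1) * h := by ring
        rw [this]
        exact hm)
      have e3 : T (a * h) ((a + m) * h) + T ((a + m) * h) ((a + m + 1) * h) =
          T (a * h) ((a + (m + 1)) * h) := by
        rw [hT]
        simp only
        rw [← Finset.card_union_of_disjoint]
        · congr 1
          ext r
          simp only [Finset.mem_union, Finset.mem_filter, Finset.mem_Ico]
          have e4 : a * h ≤ (a + m) * h := Nat.mul_le_mul_right h (by omega)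
          have e5 : (a + m) * h ≤ (a + m + 1) * h := Nat.mul_le_mul_right h (by omega)
          have e6 : (a + (m + 1)) * h = (a + m + 1) * h := by ring
          rw [e6]
          constructor
          · rintro (⟨⟨h2, h3⟩, h4⟩ | ⟨⟨h2, h3⟩, h4⟩)
            · exact ⟨⟨h2, by omega⟩, h4⟩
            · exact ⟨⟨by omega, h3⟩, h4⟩
          · rintro ⟨⟨h2, h3⟩, h4⟩
            by_cases h5 : r < (a + m) * h
            · exact Or.inl ⟨⟨h2, h5⟩, h4⟩
            · exact Or.inr ⟨⟨by omega, h3⟩, h4⟩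
        · rw [Finset.disjoint_left]
          intro r h2 h3
          have h4 := (Finset.mem_Ico.1 (Finset.mem_filter.1 h2).1).2
          have h5 := (Finset.mem_Ico.1 (Finset.mem_filter.1 h3).1).1
          omega
      have e7 : (T (a * h) ((a + m) * h) : ℝ) + T ((a + m) * h) ((a + m + 1) * h) =
          T (a * h) ((a + (m + 1)) * h) := by exact_mod_cast e3
      rw [← e7]
      push_cast
      linarith
  -- the full blocks
  set a := (s + i₀) / h + 1 with ha
  set b := (s + n) / h with hb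
  have ha1 : s + i₀ ≤ a * h := by
    have := Nat.div_add_mod (s + i₀) h
    have := Nat.mod_lt (s + i₀) (show 0 < h by omega)
    rw [ha, Nat.add_mul, one_mul, Nat.mul_comm]
    omega
  have ha2 : a * h ≤ s + i₀ + h := by
    have := Nat.div_mul_le_self (s + i₀) h
    rw [ha, Nat.add_mul, one_mul]
    omega
  have hb1 : b * h ≤ s + n := Nat.div_mul_le_self _ _
  have hb2 : s + n < b * h + h := by
    have := Nat.div_add_mod (s + n) h
    have := Nat.mod_lt (s + n) (show 0 < h by omega)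
    rw [hb, Nat.mul_comm]
    omega
  have hab : a ≤ b := by
    by_contra hcon
    push Not at hcon
    have : (b + 1) * h ≤ a * h := Nat.mul_le_mul_right h hcon
    rw [Nat.add_mul, one_mul] at this
    omega
  obtain ⟨m, hm⟩ := Nat.exists_eq_add_of_le hab
  have h2 := hsum a m (by
    rw [← hm, Nat.add_mul, one_mul]
    omega)
  rw [← hm] at h2
  have h3 : (n : ℝ) / 2 ≤ m * h := by
    have e1 : b * h = a * h + m * h := by rw [hm]; ring
    have e2 : n ≤ 2 * (m * h) := by omega
    have e3 : (n : ℝ) ≤ 2 * (m * h) := by exact_mod_cast e2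
    linarith
  have h4 : (T (a * h) (b * h) : ℝ) ≤
      (((Finset.Ico i₀ n).filter fun i => s + i ∈ J₀).card : ℝ) := by
    have h5 : ((Finset.Ico (a * h) (b * h)).filter fun r => r ∈ J₀) ⊆
        ((Finset.Ico i₀ n).filter fun i => s + i ∈ J₀).image fun i => s + i := by
      intro r hr
      rw [Finset.mem_filter, Finset.mem_Ico] at hr
      rw [Finset.mem_image]
      refine ⟨r - s, ?_, by omega⟩
      rw [Finset.mem_filter, Finset.mem_Ico]
      have e1 : s + (r - s) = r := by omega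
      rw [e1]
      exact ⟨⟨by omega, by omega⟩, hr.2⟩
    have h6 := Finset.card_le_card h5
    have h7 : (((Finset.Ico i₀ n).filter fun i => s + i ∈ J₀).image fun i => s + i).card ≤
        ((Finset.Ico i₀ n).filter fun i => s + i ∈ J₀).card := Finset.card_image_le
    exact_mod_cast h6.trans h7
  calc u * n / 2 = u * (n / 2) := by ring
    _ ≤ u * (m * h) := mul_le_mul_of_nonneg_left h3 hu
    _ ≤ T (a * h) (b * h) := h2
    _ ≤ _ := h4

end Pool.M5.NP
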