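import Pool.Agent.H33.M5.AVN
import Pool.Agent.H7.SLP.H5P

/-!
# Prediction lemma N1 for most contexts, from average hypotheses

All hypotheses are about one law `p`; (H5) is asked for all large events, given the context.
-/

set_option autoImplicit false

namespace Pool.M5

open Finset Real
open Pool.Agent.H49.Ent Pool.Agent.H32.Dense Pool.STK Pool.KAF

/-- The average hypotheses of N1. -/
structure AvN {K : ℕ} {Om Lam Tau Z : Type} [Fintype Om] (p : Om → ℝ) (C : Om → Z)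
    (L : Om → Lam) (T : Om → Tau) (v : Z → Lam → Fin K → ℤ) (N : Om → ℤ)
    (th s : Z → Tau → ℝ) (X A : ℕ) (c κ π₀ ι ε₀ : ℝ) (j₀ : ℕ) : Prop where
  law : IsLaw p
  hv : ∀ z l j, |(v z l j : ℝ)| ≤ 2 ^ X
  hth : ∀ z t, 0 ≤ th z t ∧ th z t < 1
  hN : ∀ ω ω', 0 < p ω → 0 < p ω' → C ω = C ω' → L ω = L ω' → T ω = T ω' → N ω = N ω'
  hZ : ∀ ω ω', 0 < p ω → 0 < p ω' → C ω = C ω' → L ω = L ω' →
    |((N ω' : ℝ) - N ω) - 2 ^ X * (∑ j, (v (C ω) (L ω) j / 2 ^ X) *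
      (th (C ω) (T ω') ^ (j.val + 1) - th (C ω) (T ω) ^ (j.val + 1)) +
      (s (C ω) (T ω') - s (C ω) (T ω)))| ≤ 2 ^ A
  h1 : Pool.KVA.MI p T L C ≤ ι * X
  h1f : (1 - ι) * X * Real.log 2 ≤ CH p (fun ω => ⌊(2 : ℝ) ^ X * th (C ω) (T ω)⌋)
    (fun ω => (L ω, C ω))
  h1a : j₀ * Real.log 2 - ε₀ ≤ CH p (fun ω => ⌊(2 : ℝ) ^ j₀ * th (C ω) (T ω)⌋)
    (fun ω => (L ω, C ω))
  h2 : Pool.KVA.MI p N (fun ω => v (C ω) (L ω)) (fun ω => (T ω, C ω)) ≤ ι * X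
  h5 : ∀ j : ℕ, (j + 1) * ⌊κ * X⌋₊ ≤ X → ∀ E : Set Om, π₀ ≤ Pr p E →
    CH (rs p E) (fun ω => N ω / 2 ^ (X - (j + 1) * ⌊κ * X⌋₊))
      (fun ω => ((N ω / 2 ^ (X - j * ⌊κ * X⌋₊), T ω), C ω)) ≤ (1 - c) * ⌊κ * X⌋₊ * Real.log 2

/-- N1 for most contexts, from average hypotheses. -/
def AVMStmt : Prop :=
  ∀ (K A : ℕ) (c ε : ℝ), 0 < c → 0 < ε → ∃ (κ π₀ ι ε₀ : ℝ) (j₀ X₀ : ℕ), 0 < κ ∧ κ ≤ 1 ∧
    0 < π₀ ∧ 0 < ι ∧ 0 < ε₀ ∧ ∀ (Om Lam Tau Z : Type) [Fintype Om] (p : Om → ℝ) (C : Om → Z)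
    (L : Om → Lam) (T : Om → Tau) (v : Z → Lam → Fin K → ℤ) (N : Om → ℤ) (th s : Z → Tau → ℝ)
    (X : ℕ), X₀ ≤ X → AvN p C L T v N th s X A c κ π₀ ι ε₀ j₀ →
    CH p (fun ω => v (C ω) (L ω)) C ≤ ε * X * Real.log 2

/-- **N1 for most contexts, from average hypotheses.** -/
theorem avm_thm (hN1 : N1Stmt) : AVMStmt := by
  classical
  intro K A c ε hc hε
  set c₁ : ℝ := min (c / 2) (1 / 2) with hc₁
  have hc₁0 : 0 < c₁ := lt_min (by positivity) (by norm_num)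
  have hc₁c : c₁ < c := (min_le_left _ _).trans_lt (by linarith)
  have hc₁1 : c₁ < 1 := (min_le_right _ _).trans_lt (by norm_num)
  obtain ⟨κ, π₁, ι, ε₁, j₀, X₁, hκ, hκ1, hπ, hι, hε₁, hA⟩ := avn_thm hN1 K A c₁ ε hc₁0 hε
  set nb : ℕ := ⌈2 / κ⌉₊ + 1 with hnb
  have hnb0 : (0 : ℝ) < nb := by
    rw [hnb]
    positivity
  refine ⟨κ, ε₁ * π₁ / nb, ι, ε₁, j₀, X₁ + ⌈2 / κ⌉₊, hκ, hκ1, by positivity, hι, hε₁, ?_⟩
  intro Om Lam Tau Z _ p C L T v N th s X hX hav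
  have hp := hav.law
  have hp0 := hp.nonneg
  have hl2 : 0 < Real.log 2 := Real.log_pos (by norm_num)
  have hXr : 2 / κ ≤ X := by
    have h1 := Nat.le_ceil (2 / κ)
    have h2 : ⌈2 / κ⌉₊ ≤ X := by omega
    have h3 : ((⌈2 / κ⌉₊ : ℕ) : ℝ) ≤ X := by exact_mod_cast h2
    linarith
  have hκX : 2 ≤ κ * X := by
    rw [div_le_iff₀ hκ] at hXr
    linarith
  have hX0 : (0 : ℝ) < X := by
    have : 0 < κ * X := by linarith
    by_contra h
    have h2 : (X : ℝ) ≤ 0 := not_lt.1 h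
    have := mul_nonpos_of_nonneg_of_nonpos hκ.le h2
    linarith
  set h : ℕ := ⌊κ * X⌋₊ with hh
  have hhκ : κ * X / 2 ≤ h := by
    have := Nat.lt_floor_add_one (κ * X)
    rw [← hh] at this
    linarith
  have hh0 : (0 : ℝ) < h := by linarith
  -- the rows
  have hrow := Pool.SLP.h5_ctx (R := Fin nb) hp C
    (fun r ω => if ((r : ℕ) + 1) * h ≤ X then N ω / 2 ^ (X - ((r : ℕ) + 1) * h) else 0)
    (fun r ω => (N ω / 2 ^ (X - (r : ℕ) * h), T ω))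
    ((1 - c₁) * h * Real.log 2) (ε₁ * π₁ / nb) π₁ hπ (by positivity) (by
      intro E hE r
      have hr0 : ∀ ω, 0 ≤ rs p E ω := fun ω => cond_nonneg hp0 _ _ ω
      by_cases hr : ((r : ℕ) + 1) * h ≤ X
      · simp only [if_pos hr]
        refine (hav.h5 r hr E hE).trans_lt ?_
        have h3 : (1 - c) * (h : ℝ) < (1 - c₁) * h := by nlinarith
        nlinarith
      · simp only [if_neg hr]
        have h1 : CH (rs p E) (fun _ => (0 : ℤ)) (fun ω => ((N ω / 2 ^ (X - (r : ℕ) * h), T ω),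
            C ω)) = 0 := CH_eq_zero hr0 fun _ _ _ _ _ => rfl
        rw [h1]
        have : 0 < 1 - c₁ := by linarith
        positivity)
  rw [Fintype.card_fin] at hrow
  have hrow' : ε₁ * π₁ / nb * nb / π₁ = ε₁ := by
    field_simp
  rw [hrow'] at hrow
  refine hA Om Lam Tau Z p C L T v N th s X hp (by omega) hav.hth
    (fun ω _ j => hav.hv _ _ _) hav.h1 hav.h1f hav.h1a hav.h2 (le_trans ?_ hrow)
  rw [Pr_eq, Pr_eq]
  refine Finset.sum_le_sum fun ω _ => ?_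
  rcases (hp0 ω).lt_or_eq with hω | hω
  swap
  · rw [← hω]
    simp
  by_cases hE : ω ∈ {ω | ∃ (r : Fin nb) (E : Set Om),
      π₁ ≤ Pr (Pool.Agent.H49.Ent.cond p C (C ω)) E ∧ (1 - c₁) * h * Real.log 2 ≤
        CH (rs (Pool.Agent.H49.Ent.cond p C (C ω)) E)
          (fun ω => if ((r : ℕ) + 1) * h ≤ X then N ω / 2 ^ (X - ((r : ℕ) + 1) * h) else 0)
          (fun ω => (N ω / 2 ^ (X - (r : ℕ) * h), T ω))}
  · rw [if_pos hE]
    split_ifs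
    · exact le_rfl
    · exact hω.le
  rw [if_neg hE, if_neg]
  intro hbad
  refine hbad ⟨?_, ?_⟩
  · -- the basic assumptions
    have hcl : IsLaw (Pool.Agent.H49.Ent.cond p C (C ω)) := Pool.KX.AVG.cond_law hp C hω
    refine ⟨hcl, ?_, ?_, hav.hth _, ?_⟩
    · intro l j
      show |((v (C ω) l j : ℤ) : ℝ) / 2 ^ X| ≤ 1
      rw [abs_div, abs_of_pos (show (0 : ℝ) < 2 ^ X by positivity),
        div_le_one (by positivity)]
      exact hav.hv _ _ _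
    · intro ω₁ ω₂ h1 h2 h3
      have g1 := (cond_pos_iff hp0 C (C ω) ω₁).1 h1
      have g2 := (cond_pos_iff hp0 C (C ω) ω₂).1 h2
      have h3' : (L ω₁, T ω₁) = (L ω₂, T ω₂) := h3
      exact hav.hN ω₁ ω₂ g1.1 g2.1 (g1.2.trans g2.2.symm) (Prod.ext_iff.1 h3').1
        (Prod.ext_iff.1 h3').2
    · intro ω₁ ω₂ h1 h2 h3
      have g1 := (cond_pos_iff hp0 C (C ω) ω₁).1 h1
      have g2 := (cond_pos_iff hp0 C (C ω) ω₂).1 h2
      have h4 := hav.hZ ω₁ ω₂ g1.1 g2.1 (g1.2.trans g2.2.symm) h3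
      rw [g1.2] at h4
      exact h4
  · -- the rows
    intro j _ hj E hE'
    have hj' : (j + 1) * h ≤ X := hj
    have hjnb : j < nb := by
      have h1 : ((j : ℝ) + 1) * h ≤ X := by exact_mod_cast hj'
      have h2 : ((j : ℝ) + 1) * (κ * X / 2) ≤ X :=
        (mul_le_mul_of_nonneg_left hhκ (by positivity)).trans h1
      have h3 : ((j : ℝ) + 1) * (κ / 2) ≤ 1 := by
        by_contra h4
        rw [not_le] at h4
        nlinarith
      have h4 : ((j : ℝ) + 1) ≤ 2 / κ := by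
        rw [le_div_iff₀ hκ]
        linarith
      have h5 := Nat.le_ceil (2 / κ)
      have h6 : ((j : ℝ) + 1) ≤ (⌈2 / κ⌉₊ : ℕ) := h4.trans h5
      have h7 : j + 1 ≤ ⌈2 / κ⌉₊ := by exact_mod_cast h6
      omega
    by_contra hlt
    rw [not_le] at hlt
    apply hE
    refine ⟨⟨j, hjnb⟩, E, hE', ?_⟩
    simp only [if_pos hj']
    exact hlt.le

end Pool.M5
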