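import Pool.Agent.H33.M5.N1d
import Pool.Agent.H14.OC.Tim
import Pool.Agent.H70.K2.AVG

/-!
# Prediction lemma N1: most samples have predictable digits
-/

set_option autoImplicit false

namespace Pool.M5.NP

open Finset Real
open Pool.Agent.H49.Ent Pool.Agent.H32.Dense Pool.STK Pool.KAF Pool.OC

theorem sum_range_mul (f : ℕ → ℝ) (K : ℕ) : ∀ M : ℕ,
    ∑ s ∈ range (M * K), f s = ∑ r ∈ range K, ∑ j ∈ range M, f (r + j * K) := by
  intro M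
  induction M with
  | zero => simp
  | succ M ih =>
    rw [Nat.succ_mul, Finset.sum_range_add, ih]
    simp only [Finset.sum_range_succ]
    rw [Finset.sum_add_distrib]
    congr 1
    exact Finset.sum_congr rfl fun r _ => by rw [add_comm]

/-- The conditional entropy as a mean over the values of the context. -/
theorem CH_eq_Ex {Ω S T : Type} [Fintype Ω] {p : Ω → ℝ} (hp : ∀ ω, 0 ≤ p ω) (X : Ω → S)
    (G : Ω → T) : CH p X G = Ex p (fun ω => H (cond p G (G ω)) X) := by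
  classical
  rw [CH_eq_sum hp]
  unfold Ex
  rw [sum_mul_eq_sum_image p G (fun g => H (cond p G g) X)]

/-- The times of the samples as data of theorem OC. -/
noncomputable def toDat {K : ℕ} (d : NDat K) : Pool.OC.Dat where
  Om := d.Om
  Lam := d.Lam
  Tau := d.Tau
  P := d.P
  L := d.L
  T := d.T
  y := fun _ => 0
  om := fun _ => 0
  be := fun _ => 0
  N := fun _ => 0
  th := d.th
  S := fun _ => 0
  X := d.X

lemma toDat_OK {K A : ℕ} (d : NDat K) (h : d.OK A) : (toDat d).OK 0 where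
  law := h.law
  hy := fun ω _ => by
    show |(((0 : ℤ) : ℝ)) / 2 ^ d.X| ≤ 2 ^ 0
    simp
  hom := fun ω _ => by
    show |(((0 : ℤ) : ℝ)) / 2 ^ d.X| ≤ 2 ^ 0
    simp
  hbe := fun ω _ => by
    show |(((0 : ℤ) : ℝ)) / 2 ^ d.X| ≤ 2 ^ 0
    simp
  hN := fun _ _ _ _ _ => rfl
  hth := h.hth
  hS := fun t => by
    show |(0 : ℝ)| ≤ 1
    simp
  hZ := fun ω ω' _ _ _ => by
    show |((((0 : ℤ) : ℝ)) - ((0 : ℤ) : ℝ)) - 2 ^ d.X * ((d.th (d.T ω') - d.th (d.T ω)) *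
      (((0 : ℤ) : ℝ) / 2 ^ d.X) - ((0 : ℝ) - 0) * (((0 : ℤ) : ℝ) / 2 ^ d.X) -
      (0 * d.th (d.T ω') - 0 * d.th (d.T ω)) * (((0 : ℤ) : ℝ) / 2 ^ d.X))| ≤ 8
    simp

/-- The time distances at most scales. -/
lemma tb (ε : ℝ) (hε : 0 < ε) : ∃ k'' : ℕ, ∀ κ₂ : ℝ, 0 < κ₂ → ∃ (ι : ℝ) (X₀ : ℕ), 0 < ι ∧
    ∀ (K : ℕ) (d : NDat K) (A : ℕ), d.OK A → X₀ ≤ d.X →
      Pool.KVA.MI d.P d.T d.L (fun _ => ()) ≤ ι * d.X →
      (1 - ι) * d.X * Real.log 2 ≤ CH d.P (d.Ti d.X) d.L → ∀ i₀ : ℕ,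
      i₀ + ⌊κ₂ * d.X⌋₊ / 8 ≤ ⌊κ₂ * d.X⌋₊ → ⌊κ₂ * d.X⌋₊ ≤ d.X →
      ∑ i ∈ Finset.Ico i₀ ⌊κ₂ * d.X⌋₊, Pr (Qp d i) {w | |d.th (d.T w.2) - d.th (d.T w.1)| <
        (2 : ℝ) ^ (-((i : ℤ) + k''))} ≤ ε * ⌊κ₂ * d.X⌋₊ := by
  obtain ⟨k'', hk⟩ := tim_thm ε hε
  refine ⟨k'', fun κ₂ hκ₂ => ?_⟩
  obtain ⟨ι, X₀, hι, h⟩ := hk κ₂ hκ₂
  refine ⟨ι, X₀, hι, fun K d A hOK hX h1 h2 i₀ hi hn => ?_⟩
  obtain ⟨-, h3⟩ := h (toDat d) 0 (toDat_OK d hOK) hX ⟨h1, h2⟩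
  have h4 : ∑ i ∈ Finset.Ico i₀ ⌊κ₂ * d.X⌋₊, Pr (Qp d i) {w | |d.th (d.T w.2) - d.th (d.T w.1)| <
        (2 : ℝ) ^ (-((i : ℤ) + k''))} ≤ ε * ((⌊κ₂ * d.X⌋₊ : ℝ) - i₀) :=
    h3 i₀ ⌊κ₂ * d.X⌋₊ hi hn
  refine h4.trans ?_
  have h5 : (0 : ℝ) ≤ i₀ := Nat.cast_nonneg _
  nlinarith

/-- Most samples have predictable digits. -/
lemma gd_prob (K k' : ℕ) (hk : 16 * (K + 1) ≤ 2 ^ k') : ∃ B : ℝ, 1 ≤ B ∧
    ∀ (d : NDat (K + 1)) (A : ℕ), d.OK A → ∀ (s r k₁ k'' n : ℕ) (a ε₀ : ℝ),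
      B * 2 ^ (k'' + r) ≤ 2 ^ k₁ → k' * Real.log 2 - ε₀ ≤ CH d.P (d.Ti k') d.L →
      Pr d.P {ω | ¬ Gd d s r ((K + 1) * a) ω} ≤
        2 * Pr d.P {ω | ¬ NiceP d (k' + 2) n k'' k₁ a s ω} + 4 * ε₀ := by
  classical
  obtain ⟨B, hB1, hB⟩ := gd_of_bases K k'
  refine ⟨B, hB1, fun d A hOK s r k₁ k'' n a ε₀ hBk hH => ?_⟩
  have hP := hOK.law
  have hP0 := hP.nonneg
  set N : Set d.Om := {ω | NiceP d (k' + 2) n k'' k₁ a s ω} with hN
  have hNc : {ω | ¬ NiceP d (k' + 2) n k'' k₁ a s ω} = Nᶜ := rfl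
  rw [hNc]
  have hPrn : ∀ (q : d.Om → ℝ) (hq : ∀ ω, 0 ≤ q ω) (E : Set d.Om), 0 ≤ Pr q E := by
    intro q hq E
    rw [Pr_eq]
    refine Finset.sum_nonneg fun v _ => ?_
    split_ifs
    · exact hq v
    · exact le_rfl
  -- the first exceptional set
  have hA : Pr d.P {ω | 1 / 2 < Pr (cond d.P d.L (d.L ω)) Nᶜ} ≤ 2 * Pr d.P Nᶜ := by
    refine Pool.KX.AVG.markov hP0 (fun ω => Pr (cond d.P d.L (d.L ω)) Nᶜ)
      (fun ω _ => hPrn _ (cond_nonneg hP0 _ _) _) (1 / 2) (2 * Pr d.P Nᶜ) (by norm_num) ?_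
    rw [Pool.KX.AVG.Pr_cond_sum hP0 d.L Nᶜ]
    linarith
  -- the second exceptional set
  have hcard : ∀ ω, 0 < d.P ω → H (cond d.P d.L (d.L ω)) (d.Ti k') ≤ k' * Real.log 2 := by
    intro ω hω
    have hql : IsLaw (cond d.P d.L (d.L ω)) := ⟨cond_nonneg hP0 _ _,
      sum_cond d.P d.L (law_pos hP0 d.L hω).ne'⟩
    have h1 : H (cond d.P d.L (d.L ω)) (d.Ti k') ≤
        Real.log ((Finset.Ico (0 : ℤ) (2 ^ k')).card : ℝ) := by
      refine H_le_log_card hql.nonneg hql.sum_one (d.Ti k') _ fun v _ => ?_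
      have h1 := hOK.hth (d.T v)
      rw [Finset.mem_Ico]
      unfold NDat.Ti
      constructor
      · exact Int.floor_nonneg.2 (mul_nonneg (by positivity) h1.1)
      · rw [Int.floor_lt]
        push_cast
        calc (2 : ℝ) ^ k' * d.th (d.T v) < 2 ^ k' * 1 :=
              mul_lt_mul_of_pos_left h1.2 (by positivity)
          _ = 2 ^ k' := mul_one _
    refine h1.trans (le_of_eq ?_)
    rw [Int.card_Ico, sub_zero, show (2 ^ k' : ℤ).toNat = 2 ^ k' by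
      rw [show (2 ^ k' : ℤ) = ((2 ^ k' : ℕ) : ℤ) by push_cast; rfl, Int.toNat_natCast]]
    push_cast
    rw [Real.log_pow]
  have hBd : Pr d.P {ω | 1 / 4 < k' * Real.log 2 - H (cond d.P d.L (d.L ω)) (d.Ti k')} ≤
      4 * ε₀ := by
    refine Pool.KX.AVG.markov hP0
      (fun ω => k' * Real.log 2 - H (cond d.P d.L (d.L ω)) (d.Ti k'))
      (fun ω hω => sub_nonneg.2 (hcard ω hω)) (1 / 4) (4 * ε₀) (by norm_num) ?_
    have h1 := CH_eq_Ex hP0 (d.Ti k') d.L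
    unfold Ex at h1
    have h2 : ∑ ω, d.P ω * (k' * Real.log 2 - H (cond d.P d.L (d.L ω)) (d.Ti k')) =
        k' * Real.log 2 - CH d.P (d.Ti k') d.L := by
      rw [h1]
      simp only [mul_sub, Finset.sum_sub_distrib]
      rw [← Finset.sum_mul, hP.sum_one, one_mul]
    rw [h2]
    linarith
  -- off both sets
  have hsub : ∀ ω, 0 < d.P ω → ω ∈ {ω | ¬ Gd d s r ((K + 1) * a) ω} →
      ω ∈ {ω | 1 / 2 < Pr (cond d.P d.L (d.L ω)) Nᶜ} ∨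
      ω ∈ {ω | 1 / 4 < k' * Real.log 2 - H (cond d.P d.L (d.L ω)) (d.Ti k')} := by
    intro ω hω hG
    by_contra hcon
    rw [not_or] at hcon
    obtain ⟨h1, h2⟩ := hcon
    rw [Set.mem_ofPred_eq, not_lt] at h1 h2
    obtain ⟨b, hb, hsep⟩ := pick_bases d hOK k' hk hω N h1 (by linarith)
    have hb3 : ∀ p, NiceP d (k' + 2) n k'' k₁ a s (b p) := fun p => (hb p).2.2
    choose i hi c hc using hb3
    refine hG (hB d A hOK s r k₁ k'' a ω b c i hBk (fun p => (hb p).2.1) hsep ?_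
      (fun p => (hc p).2.1) fun p => (hc p).2.2)
    intro p
    have hpos := (hc p).1
    have hw' : 0 < glue d.P d.P (fun ω => (d.L ω, d.Ti (i p) ω))
      (fun ω => (d.L ω, d.Ti (i p) ω)) (b p, c p) := hpos
    obtain ⟨-, -, h3⟩ := (glue_pos_iff hP0 hP0 (b p, c p)).1 hw'
    have h4 : d.Ti (i p) (b p) = d.Ti (i p) (c p) := congrArg Prod.snd h3
    unfold NDat.Ti at h4
    have e1 := Int.floor_le ((2 : ℝ) ^ (i p) * d.th (d.T (b p)))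
    have e2 := Int.lt_floor_add_one ((2 : ℝ) ^ (i p) * d.th (d.T (b p)))
    have e3 := Int.floor_le ((2 : ℝ) ^ (i p) * d.th (d.T (c p)))
    have e4 := Int.lt_floor_add_one ((2 : ℝ) ^ (i p) * d.th (d.T (c p)))
    rw [h4] at e1 e2
    have hpos : (0 : ℝ) < 2 ^ (i p) := by positivity
    have h5 : |d.th (d.T (c p)) - d.th (d.T (b p))| ≤ 1 / 2 ^ (i p) := by
      rw [le_div_iff₀ hpos, ← abs_of_pos hpos, ← abs_mul, abs_le]
      constructor <;> nlinarith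
    refine h5.trans ?_
    have h6 := (Finset.mem_Ico.1 (hi p)).1
    exact one_div_le_one_div_of_le (by positivity) (pow_le_pow_right₀ (by norm_num) h6)
  have hfin : Pr d.P {ω | ¬ Gd d s r ((K + 1) * a) ω} ≤
      Pr d.P {ω | 1 / 2 < Pr (cond d.P d.L (d.L ω)) Nᶜ} +
      Pr d.P {ω | 1 / 4 < k' * Real.log 2 - H (cond d.P d.L (d.L ω)) (d.Ti k')} := by
    rw [Pr_eq, Pr_eq, Pr_eq, ← Finset.sum_add_distrib]
    refine Finset.sum_le_sum fun ω _ => ?_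
    have h0 := hP0 ω
    by_cases h1 : ω ∈ {ω | ¬ Gd d s r ((K + 1) * a) ω}
    · rw [if_pos h1]
      rcases h0.lt_or_eq with hp | hp
      · rcases hsub ω hp h1 with h2 | h2
        · rw [if_pos h2]
          split_ifs <;> linarith
        · rw [if_pos h2]
          split_ifs <;> linarith
      · rw [← hp]
        simp
    · rw [if_neg h1]
      split_ifs <;> linarith
  linarith

end Pool.M5.NP
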