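import Pool.Agent.H48.M5.Stmts
import Pool.Agent.H33.M5.N1e
import Pool.Agent.H5.K2.CLU

/-!
# Prediction lemma N1 for most contexts

`ndat` is the data of N1 in the context `z`: the law is the conditional law given `C = z`; the
unknown numbers, the time in the window and the reference may depend on the context.
`avn_thm`: averaged hypotheses, averaged conclusion.
-/

set_option autoImplicit false

namespace Pool.M5

open Finset Real
open Pool.Agent.H49.Ent Pool.Agent.H32.Dense Pool.STK Pool.KAF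

section

variable {K : ℕ} {Om Lam Tau Z : Type} [Fintype Om]

/-- The data of N1 in the context `z`. -/
noncomputable def ndat (p : Om → ℝ) (C : Om → Z) (L : Om → Lam) (T : Om → Tau)
    (v : Z → Lam → Fin K → ℤ) (N : Om → ℤ) (th s : Z → Tau → ℝ) (X : ℕ) (z : Z) : NDat K where
  Om := Om
  Lam := Lam
  Tau := Tau
  P := Pool.Agent.H49.Ent.cond p C z
  L := L
  T := T
  v := v z
  N := N
  th := th z
  s := s z
  X := X

end

/-- N1 for most contexts. -/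
def AVNStmt : Prop :=
  ∀ (K A : ℕ) (c ε : ℝ), 0 < c → 0 < ε → ∃ (κ π₀ ι ε₀ : ℝ) (j₀ X₀ : ℕ), 0 < κ ∧ κ ≤ 1 ∧
    0 < π₀ ∧ 0 < ι ∧ 0 < ε₀ ∧ ∀ (Om Lam Tau Z : Type) [Fintype Om] (p : Om → ℝ) (C : Om → Z)
    (L : Om → Lam) (T : Om → Tau) (v : Z → Lam → Fin K → ℤ) (N : Om → ℤ) (th s : Z → Tau → ℝ)
    (X : ℕ), IsLaw p → X₀ ≤ X → (∀ z t, 0 ≤ th z t ∧ th z t < 1) →
    (∀ ω, 0 < p ω → ∀ j, |(v (C ω) (L ω) j : ℝ)| ≤ 2 ^ X) →
    Pool.KVA.MI p T L C ≤ ι * X →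
    (1 - ι) * X * Real.log 2 ≤ CH p (fun ω => ⌊(2 : ℝ) ^ X * th (C ω) (T ω)⌋)
      (fun ω => (L ω, C ω)) →
    j₀ * Real.log 2 - ε₀ ≤ CH p (fun ω => ⌊(2 : ℝ) ^ j₀ * th (C ω) (T ω)⌋)
      (fun ω => (L ω, C ω)) →
    Pool.KVA.MI p N (fun ω => v (C ω) (L ω)) (fun ω => (T ω, C ω)) ≤ ι * X →
    Pr p {ω | ¬ ((ndat p C L T v N th s X (C ω)).OK A ∧
      (ndat p C L T v N th s X (C ω)).toR.H5 c κ π₀ ∅)} ≤ ε₀ →
    CH p (fun ω => v (C ω) (L ω)) C ≤ ε * X * Real.log 2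

namespace AVN

variable {Om S T U : Type} [Fintype Om]

theorem ch_pair_ex {p : Om → ℝ} (hp : ∀ ω, 0 ≤ p ω) (X : Om → S) (Y : Om → U) (G : Om → T) :
    CH p X (fun ω => (Y ω, G ω)) =
      ∑ ω, p ω * CH (Pool.Agent.H49.Ent.cond p G (G ω)) X Y := by
  classical
  rw [CH_split hp, sum_mul_eq_sum_image p G (fun g => CH (Pool.Agent.H49.Ent.cond p G g) X Y)]

theorem ch_ex {p : Om → ℝ} (hp : ∀ ω, 0 ≤ p ω) (X : Om → S) (G : Om → T) :
    CH p X G = ∑ ω, p ω * H (Pool.Agent.H49.Ent.cond p G (G ω)) X := by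
  classical
  rw [CH_eq_sum hp, sum_mul_eq_sum_image p G (fun g => H (Pool.Agent.H49.Ent.cond p G g) X)]

theorem ch_unit {q : Om → ℝ} (hq : IsLaw q) (X : Om → S) : CH q X (fun _ => ()) = H q X := by
  have h1 : H q (fun _ : Om => ()) = 0 := by
    have h2 := H_le_log_card hq.nonneg hq.sum_one (fun _ : Om => ()) {()} (fun _ _ => by simp)
    have h3 := H_nonneg hq.nonneg hq.sum_one (fun _ : Om => ())
    rw [Finset.card_singleton, Nat.cast_one, Real.log_one] at h2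
    exact le_antisymm h2 h3
  unfold CH
  rw [h1, sub_zero]
  exact H_congr hq.nonneg (fun ω ω' _ _ h => by rw [h]) (fun ω ω' _ _ h => (Prod.ext_iff.mp h).1)

theorem mi_unit {q : Om → ℝ} (hq : IsLaw q) (X : Om → S) (Y : Om → T) :
    Pool.KVA.MI q X Y (fun _ => ()) = H q X + H q Y - H q (fun ω => (X ω, Y ω)) := by
  unfold Pool.KVA.MI
  rw [ch_unit hq, ch_unit hq, ch_unit hq]

/-- Markov for a deficit. -/
theorem mark {p : Om → ℝ} (hp : IsLaw p) (f : Om → ℝ) (hf : ∀ ω, 0 < p ω → 0 ≤ f ω) {e a S : ℝ}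
    (he : 0 < e) (hS : ∑ ω, p ω * f ω ≤ S) (h : S ≤ e * a) : Pr p {ω | e < f ω} ≤ a :=
  Pool.KX.AVG.markov hp.nonneg f hf e a he (hS.trans h)

/-- Variables which agree on the support. -/
theorem h_eq {q : Om → ℝ} (hq : ∀ ω, 0 ≤ q ω) {X X' : Om → S} (h : ∀ ω, 0 < q ω → X ω = X' ω) :
    H q X = H q X' :=
  H_congr hq (fun ω ω' a b e => by
    have e' : X' ω = X' ω' := e
    show X ω = X ω'
    rw [h ω a, h ω' b, e']) (fun ω ω' a b e => by
    have e' : X ω = X ω' := e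
    show X' ω = X' ω'
    rw [← h ω a, ← h ω' b, e'])

theorem ch_eq {q : Om → ℝ} (hq : ∀ ω, 0 ≤ q ω) {X X' : Om → S} (Y : Om → T)
    (h : ∀ ω, 0 < q ω → X ω = X' ω) : CH q X Y = CH q X' Y := by
  unfold CH
  rw [h_eq hq (X := fun ω => (X ω, Y ω)) (X' := fun ω => (X' ω, Y ω))
    (fun ω hω => by rw [h ω hω])]

theorem mi_eq {q : Om → ℝ} (hq : ∀ ω, 0 ≤ q ω) (X : Om → S) {Y Y' : Om → T} (Z : Om → U)
    (h : ∀ ω, 0 < q ω → Y ω = Y' ω) : Pool.KVA.MI q X Y Z = Pool.KVA.MI q X Y' Z := by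
  unfold Pool.KVA.MI
  rw [ch_eq hq Z h, ch_eq hq (X := fun ω => (X ω, Y ω)) (X' := fun ω => (X ω, Y' ω)) Z
    (fun ω hω => by rw [h ω hω])]

theorem dig_le {q : Om → ℝ} (hq : IsLaw q) (i : ℕ) (t : Om → ℝ)
    (ht : ∀ ω, 0 ≤ t ω ∧ t ω < 1) (Y : Om → T) :
    CH q (fun ω => ⌊(2 : ℝ) ^ i * t ω⌋) Y ≤ i * Real.log 2 := by
  classical
  have h1 := CH_le_card hq.nonneg hq.sum_one (fun ω => ⌊(2 : ℝ) ^ i * t ω⌋) Y
    (fun _ => Finset.Ico (0 : ℤ) (2 ^ i)) (by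
      intro v _
      rw [Finset.mem_Ico]
      constructor
      · exact Int.floor_nonneg.2 (mul_nonneg (by positivity) (ht v).1)
      · rw [Int.floor_lt]
        push_cast
        calc (2 : ℝ) ^ i * t v < 2 ^ i * 1 :=
              mul_lt_mul_of_pos_left (ht v).2 (by positivity)
          _ = 2 ^ i := mul_one _)
  refine h1.trans (le_of_eq ?_)
  rw [Ex_const hq.sum_one, Int.card_Ico, sub_zero, show (2 ^ i : ℤ).toNat = 2 ^ i by
    rw [show (2 ^ i : ℤ) = ((2 ^ i : ℕ) : ℤ) by push_cast; rfl, Int.toNat_natCast]]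
  push_cast
  rw [Real.log_pow]

theorem size_le {K : ℕ} {q : Om → ℝ} (hq : IsLaw q) (X : ℕ) (v : Om → Fin K → ℤ)
    (hv : ∀ ω, 0 < q ω → ∀ j, |(v ω j : ℝ)| ≤ 2 ^ X) : H q v ≤ K * ((X + 2) * Real.log 2) := by
  classical
  have h1 := H_le_log_card hq.nonneg hq.sum_one v
    (Fintype.piFinset fun _ => Finset.Icc (-(2 ^ X : ℤ)) (2 ^ X))
    (by
      intro ω hω
      rw [Fintype.mem_piFinset]
      intro j
      have h := abs_le.1 (hv ω hω j)
      rw [Finset.mem_Icc]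
      constructor
      · have h2 : (((-(2 ^ X) : ℤ)) : ℝ) ≤ ((v ω j : ℤ) : ℝ) := by
          push_cast
          exact h.1
        exact_mod_cast h2
      · have h2 : ((v ω j : ℤ) : ℝ) ≤ (((2 ^ X) : ℤ) : ℝ) := by
          push_cast
          exact h.2
        exact_mod_cast h2)
  refine h1.trans ?_
  rw [Fintype.card_piFinset, Finset.prod_const, Finset.card_univ, Fintype.card_fin, Int.card_Icc]
  push_cast
  rw [Real.log_pow]
  refine mul_le_mul_of_nonneg_left ?_ (Nat.cast_nonneg _)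
  have h4 : (1 : ℤ) ≤ 2 ^ X := one_le_pow₀ (by norm_num)
  have h2 : (((2 ^ X + 1 - -(2 ^ X) : ℤ).toNat : ℕ) : ℝ) ≤ 2 ^ (X + 2) := by
    have h3 : ((2 ^ X + 1 - -(2 ^ X) : ℤ).toNat : ℤ) ≤ 2 ^ (X + 2) := by
      rw [Int.toNat_of_nonneg (by linarith only [h4]), pow_add]
      linarith only [h4]
    exact_mod_cast h3
  have h3 : (0 : ℝ) < (((2 ^ X + 1 - -(2 ^ X) : ℤ).toNat : ℕ) : ℝ) := by
    have h5 : 0 < (2 ^ X + 1 - -(2 ^ X) : ℤ).toNat := by
      rw [Int.lt_toNat]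
      push_cast
      linarith
    exact_mod_cast h5
  refine (Real.log_le_log h3 h2).trans (le_of_eq ?_)
  rw [Real.log_pow]
  push_cast
  rfl

end AVN

open AVN in
/-- **N1 for most contexts.** -/
theorem avn_thm (hN1 : N1Stmt) : AVNStmt := by
  classical
  intro K A c ε hc hε
  obtain ⟨κ, π₀, ι₁, ε₁, j₀, X₁, hκ, hκ1, hπ, hι, hε₁, hN⟩ := hN1 K A c (ε / 4) hc (by positivity)
  obtain ⟨θ, hθ⟩ : ∃ θ : ℝ, θ = ε / (20 * ((K : ℝ) + 1)) := ⟨_, rfl⟩
  have hθ0 : 0 < θ := by rw [hθ]; positivity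
  refine ⟨κ, π₀, ι₁ * θ, min (ε₁ * θ) θ, j₀, X₁ + 1, hκ, hκ1, hπ, by positivity,
    lt_min (by positivity) hθ0, ?_⟩
  intro Om Lam Tau Z _ p C L T v N th s X hp hX hth hvX h1 h2 h3 h4 h5
  have hp0 := hp.nonneg
  have hl2 : 0 < Real.log 2 := Real.log_pos (by norm_num)
  have hX1 : (1 : ℝ) ≤ X := by
    have : 1 ≤ X := by omega
    exact_mod_cast this
  have hX0 : (0 : ℝ) < X := by linarith only [hX1]
  set q : Om → Om → ℝ := fun ω => Pool.Agent.H49.Ent.cond p C (C ω) with hq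
  have hql : ∀ ω, 0 < p ω → IsLaw (q ω) := fun ω hω => Pool.KX.AVG.cond_law hp C hω
  have hqs : ∀ ω ω', 0 < q ω ω' → 0 < p ω' ∧ C ω' = C ω := fun ω ω' h =>
    (cond_pos_iff hp0 C (C ω) ω').1 h
  -- the exceptional sets
  set B1 : Set Om := {ω | ι₁ * X < Pool.KVA.MI (q ω) T L (fun _ => ())} with hB1
  set B2 : Set Om := {ω | ι₁ * X * Real.log 2 < X * Real.log 2 -
    CH (q ω) (fun ω' => ⌊(2 : ℝ) ^ X * th (C ω) (T ω')⌋) L} with hB2
  set B3 : Set Om := {ω | ε₁ < j₀ * Real.log 2 -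
    CH (q ω) (fun ω' => ⌊(2 : ℝ) ^ j₀ * th (C ω) (T ω')⌋) L} with hB3
  set B4 : Set Om := {ω | ι₁ * X < Pool.KVA.MI (q ω) N (fun ω' => v (C ω) (L ω')) T} with hB4
  set B5 : Set Om := {ω | ¬ ((ndat p C L T v N th s X (C ω)).OK A ∧
      (ndat p C L T v N th s X (C ω)).toR.H5 c κ π₀ ∅)} with hB5
  have p1 : Pr p B1 ≤ θ := by
    refine mark hp (fun ω => Pool.KVA.MI (q ω) T L (fun _ => ()))
      (fun ω hω => CLU.MI_nonneg (hql ω hω).nonneg _ _ _) (S := ι₁ * θ * X) (by positivity) ?_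
      (by linarith only)
    refine le_trans (le_of_eq ?_) h1
    rw [Pool.KX.AVG.MI_eq hp0]
    refine Finset.sum_congr rfl fun ω _ => ?_
    rcases (hp0 ω).lt_or_eq with h | h
    · rw [mi_unit (hql ω h)]
    · rw [← h, zero_mul, zero_mul]
  have hdig : ∀ i : ℕ, ∑ ω, p ω * (i * Real.log 2 -
      CH (q ω) (fun ω' => ⌊(2 : ℝ) ^ i * th (C ω) (T ω')⌋) L) = i * Real.log 2 -
        CH p (fun ω => ⌊(2 : ℝ) ^ i * th (C ω) (T ω)⌋) (fun ω => (L ω, C ω)) := by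
    intro i
    rw [ch_pair_ex hp0]
    simp only [mul_sub, Finset.sum_sub_distrib]
    rw [← Finset.sum_mul, hp.sum_one, one_mul]
    congr 1
    refine Finset.sum_congr rfl fun ω _ => ?_
    congr 1
    refine ch_eq (fun ω' => cond_nonneg hp0 _ _ ω') L fun ω' hω' => ?_
    rw [(hqs ω ω' hω').2]
  have p2 : Pr p B2 ≤ θ := by
    refine mark hp (fun ω => X * Real.log 2 -
      CH (q ω) (fun ω' => ⌊(2 : ℝ) ^ X * th (C ω) (T ω')⌋) L)
      (fun ω hω => sub_nonneg.2 (dig_le (hql ω hω) X _ (fun ω' => hth _ _) _))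
      (S := ι₁ * θ * (X * Real.log 2)) (by positivity) ?_ (by linarith only)
    rw [hdig X]
    linarith only [h2]
  have p3 : Pr p B3 ≤ θ := by
    refine mark hp (fun ω => j₀ * Real.log 2 -
      CH (q ω) (fun ω' => ⌊(2 : ℝ) ^ j₀ * th (C ω) (T ω')⌋) L)
      (fun ω hω => sub_nonneg.2 (dig_le (hql ω hω) j₀ _ (fun ω' => hth _ _) _))
      (S := ε₁ * θ) hε₁ ?_ le_rfl
    rw [hdig j₀]
    have := min_le_left (ε₁ * θ) θ
    linarith only [h3, this]
  have p4 : Pr p B4 ≤ θ := by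
    refine mark hp (fun ω => Pool.KVA.MI (q ω) N (fun ω' => v (C ω) (L ω')) T)
      (fun ω hω => CLU.MI_nonneg (hql ω hω).nonneg _ _ _) (S := ι₁ * θ * X) (by positivity) ?_
      (by linarith)
    refine le_trans (le_of_eq ?_) h4
    unfold Pool.KVA.MI
    rw [ch_pair_ex hp0, ch_pair_ex hp0, ch_pair_ex hp0, ← Finset.sum_add_distrib,
      ← Finset.sum_sub_distrib]
    refine Finset.sum_congr rfl fun ω _ => ?_
    rw [ch_eq (q := Pool.Agent.H49.Ent.cond p C (C ω)) (fun ω' => cond_nonneg hp0 _ _ ω')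
      (X := fun ω' => v (C ω') (L ω')) (X' := fun ω' => v (C ω) (L ω')) T
      (fun ω' hω' => by rw [(hqs ω ω' hω').2]),
      ch_eq (q := Pool.Agent.H49.Ent.cond p C (C ω)) (fun ω' => cond_nonneg hp0 _ _ ω')
      (X := fun ω' => (N ω', v (C ω') (L ω'))) (X' := fun ω' => (N ω', v (C ω) (L ω'))) T
      (fun ω' hω' => by rw [(hqs ω ω' hω').2])]
    ring
  have p5 : Pr p B5 ≤ θ := h5.trans (min_le_right _ _)
  -- the entropy in one context
  have hall : ∀ ω, 0 < p ω → H (q ω) (fun ω' => v (C ω') (L ω')) ≤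
      K * ((X + 2) * Real.log 2) := by
    intro ω hω
    exact size_le (hql ω hω) X _ fun ω' hω' j => hvX ω' (hqs ω ω' hω').1 j
  have hgood : ∀ ω, 0 < p ω → ω ∉ B1 → ω ∉ B2 → ω ∉ B3 → ω ∉ B4 → ω ∉ B5 →
      H (q ω) (fun ω' => v (C ω') (L ω')) ≤ ε / 4 * X * Real.log 2 := by
    intro ω hω n1 n2 n3 n4 n5
    have n5' := not_not.1 n5
    have n1' : Pool.KVA.MI (q ω) T L (fun _ => ()) ≤ ι₁ * X := not_lt.1 n1
    have n2' : X * Real.log 2 - CH (q ω) (fun ω' => ⌊(2 : ℝ) ^ X * th (C ω) (T ω')⌋) L ≤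
      ι₁ * X * Real.log 2 := not_lt.1 n2
    have n3' : j₀ * Real.log 2 - CH (q ω) (fun ω' => ⌊(2 : ℝ) ^ j₀ * th (C ω) (T ω')⌋) L ≤
      ε₁ := not_lt.1 n3
    have n4' : Pool.KVA.MI (q ω) N (fun ω' => v (C ω) (L ω')) T ≤ ι₁ * X := not_lt.1 n4
    have key := hN (ndat p C L T v N th s X (C ω)) n5'.1 (by
      show X₁ ≤ X
      omega) ⟨n1', by
        show (1 - ι₁) * X * Real.log 2 ≤
          CH (q ω) (fun ω' => ⌊(2 : ℝ) ^ X * th (C ω) (T ω')⌋) L
        linarith only [n2'], by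
        show j₀ * Real.log 2 - ε₁ ≤
          CH (q ω) (fun ω' => ⌊(2 : ℝ) ^ j₀ * th (C ω) (T ω')⌋) L
        linarith only [n3']⟩ n4' n5'.2
    refine le_trans (le_of_eq ?_) key
    exact h_eq (fun ω' => cond_nonneg hp0 _ _ ω') fun ω' hω' => by
      rw [(hqs ω ω' hω').2]
      rfl
  have hpt : ∀ ω, p ω * H (q ω) (fun ω' => v (C ω') (L ω')) ≤
      p ω * (ε / 4 * X * Real.log 2) +
      ((if ω ∈ B1 then p ω else 0) + (if ω ∈ B2 then p ω else 0) +
        (if ω ∈ B3 then p ω else 0) + (if ω ∈ B4 then p ω else 0) +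
        (if ω ∈ B5 then p ω else 0)) * (K * ((X + 2) * Real.log 2)) := by
    intro ω
    have hs0 : 0 ≤ (K : ℝ) * ((X + 2) * Real.log 2) := by positivity
    have hg0 : 0 ≤ ε / 4 * X * Real.log 2 := by positivity
    rcases (hp0 ω).lt_or_eq with h | h
    swap
    · rw [← h]
      simp
    have hi : ∀ (E : Prop) [Decidable E], 0 ≤ (if E then p ω else 0) := fun E _ => by
      split_ifs
      · exact h.le
      · exact le_rfl
    by_cases hb : ω ∉ B1 ∧ ω ∉ B2 ∧ ω ∉ B3 ∧ ω ∉ B4 ∧ ω ∉ B5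
    · have h6 := mul_le_mul_of_nonneg_left (hgood ω h hb.1 hb.2.1 hb.2.2.1 hb.2.2.2.1 hb.2.2.2.2)
        h.le
      refine h6.trans (le_add_of_nonneg_right (mul_nonneg ?_ hs0))
      have i1 := hi (ω ∈ B1)
      have i2 := hi (ω ∈ B2)
      have i3 := hi (ω ∈ B3)
      have i4 := hi (ω ∈ B4)
      have i5 := hi (ω ∈ B5)
      linarith only [i1, i2, i3, i4, i5]
    · have h6 : p ω ≤ (if ω ∈ B1 then p ω else 0) + (if ω ∈ B2 then p ω else 0) +
        (if ω ∈ B3 then p ω else 0) + (if ω ∈ B4 then p ω else 0) +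
        (if ω ∈ B5 then p ω else 0) := by
        have i1 := hi (ω ∈ B1)
        have i2 := hi (ω ∈ B2)
        have i3 := hi (ω ∈ B3)
        have i4 := hi (ω ∈ B4)
        have i5 := hi (ω ∈ B5)
        by_contra hcon
        refine hb ⟨fun g => ?_, fun g => ?_, fun g => ?_, fun g => ?_, fun g => ?_⟩ <;>
        · rw [if_pos g] at hcon
          exact hcon (by linarith)
      have h7 := mul_le_mul_of_nonneg_left (hall ω h) h.le
      have h8 := mul_le_mul_of_nonneg_right h6 hs0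
      have h9 := mul_nonneg h.le hg0
      linarith only [h7, h8, h9]
  have hsum := Finset.sum_le_sum fun ω (_ : ω ∈ Finset.univ) => hpt ω
  rw [Finset.sum_add_distrib, ← Finset.sum_mul, ← Finset.sum_mul, hp.sum_one, one_mul] at hsum
  simp only [Finset.sum_add_distrib] at hsum
  rw [← Pr_eq p B1, ← Pr_eq p B2, ← Pr_eq p B3, ← Pr_eq p B4, ← Pr_eq p B5] at hsum
  rw [ch_ex hp0]
  refine hsum.trans ?_
  have hs0 : 0 ≤ (K : ℝ) * ((X + 2) * Real.log 2) := by positivity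
  have h6 : (Pr p B1 + Pr p B2 + Pr p B3 + Pr p B4 + Pr p B5) * (K * ((X + 2) * Real.log 2)) ≤
      (5 * θ) * (K * ((X + 2) * Real.log 2)) :=
    mul_le_mul_of_nonneg_right (by linarith only [p1, p2, p3, p4, p5]) hs0
  have h7 : (5 * θ) * (K * ((X + 2) * Real.log 2)) ≤ 3 / 4 * ε * X * Real.log 2 := by
    have h8 : (5 * θ) * K ≤ ε / 4 := by
      rw [hθ]
      have hK : (0 : ℝ) ≤ K := Nat.cast_nonneg K
      rw [show 5 * (ε / (20 * ((K : ℝ) + 1))) * K = ε * K / (4 * (K + 1)) by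
        field_simp; ring]
      rw [div_le_div_iff₀ (by positivity) (by norm_num)]
      nlinarith only [hε]
    have h9 : (X : ℝ) + 2 ≤ 3 * X := by linarith only [hX1]
    calc (5 * θ) * (K * ((X + 2) * Real.log 2)) = ((5 * θ) * K) * ((X + 2) * Real.log 2) := by
          ring
      _ ≤ (ε / 4) * ((X + 2) * Real.log 2) := mul_le_mul_of_nonneg_right h8 (by positivity)
      _ ≤ (ε / 4) * ((3 * X) * Real.log 2) := by gcongr
      _ = 3 / 4 * ε * X * Real.log 2 := by ring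
  linarith only [h6, h7]

end Pool.M5
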