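import Pool.Agent.H48.M5.Stmts
import Pool.Agent.H26.OC.RWB
import Pool.Agent.H29.OC.Gds
import Pool.Agent.H70.OC.Tel
import Pool.Agent.H99.KAL.GVI
import Pool.Agent.H33.M5.N1a

/-!
# Prediction lemma N1: cells, atomic forms and the next digits
-/

set_option autoImplicit false

namespace Pool.M5.NP

open Finset Real
open Pool.Agent.H49.Ent Pool.Agent.H32.Dense Pool.STK Pool.KAF Pool.OC

/-- A large part of the values, from the entropy. -/
lemma card_lb {Ω T : Type} [Fintype Ω] [Fintype T] [DecidableEq T] {q : Ω → ℝ} (hq : IsLaw q)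
    (Y : Ω → T) (G : Ω → Prop) [DecidablePred G] (A : Finset T) (hA : ∀ ω, G ω → Y ω ∈ A)
    (hG : 1 / 2 ≤ ∑ ω, if G ω then q ω else 0) :
    0 < A.card ∧ Real.log ((Fintype.card T : ℝ) / A.card) ≤
      2 * (Real.log (Fintype.card T) - H q Y + Real.log 2) := by
  have hne : 0 < A.card := by
    rw [Finset.card_pos]
    by_contra h
    rw [Finset.not_nonempty_iff_eq_empty] at h
    have h1 : ∑ ω, (if G ω then q ω else 0) = 0 := by
      refine Finset.sum_eq_zero fun ω _ => ?_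
      rw [if_neg]
      intro h2
      have h3 := hA ω h2
      rw [h] at h3
      exact absurd h3 (Finset.notMem_empty _)
    rw [h1] at hG
    norm_num at hG
  refine ⟨hne, ?_⟩
  have hA0 : (0 : ℝ) < A.card := by exact_mod_cast hne
  have hAT : (A.card : ℝ) ≤ Fintype.card T := by exact_mod_cast Finset.card_le_univ A
  have hT0 : (0 : ℝ) < Fintype.card T := lt_of_lt_of_le hA0 hAT
  set lam : ℝ := Real.log ((Fintype.card T : ℝ) / A.card) with hlam
  have hlam0 : 0 ≤ lam := Real.log_nonneg (by rw [le_div_iff₀ hA0]; linarith)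
  have h1 := Pool.KAL.gvi_thm Ω T q Y univ (fun s => if s ∈ A then lam else 0) hq
    (fun ω => Finset.mem_univ _)
  have h2 : lam * (1 / 2) ≤ Ex q (fun ω => if Y ω ∈ A then lam else 0) := by
    refine (mul_le_mul_of_nonneg_left hG hlam0).trans ?_
    rw [Ex, Finset.mul_sum]
    refine Finset.sum_le_sum fun ω _ => ?_
    by_cases hg : G ω
    · rw [if_pos hg, if_pos (hA ω hg)]
      exact le_of_eq (mul_comm _ _)
    · rw [if_neg hg, mul_zero]
      refine mul_nonneg (hq.nonneg ω) ?_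
      split_ifs <;> linarith
  have h3 : (∑ s : T, Real.exp (if s ∈ A then lam else 0)) / (univ : Finset T).card ≤ 2 := by
    rw [div_le_iff₀ (by rw [Finset.card_univ]; exact hT0)]
    have h4 : ∀ s : T, Real.exp (if s ∈ A then lam else 0) ≤
        1 + (if s ∈ A then Real.exp lam else 0) := by
      intro s
      split_ifs
      · linarith
      · rw [Real.exp_zero]
        linarith
    refine (Finset.sum_le_sum fun s _ => h4 s).trans ?_
    rw [Finset.sum_add_distrib, Finset.sum_const, Finset.sum_ite_mem, Finset.univ_inter,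
      Finset.sum_const, nsmul_eq_mul, nsmul_eq_mul, hlam, Real.exp_log (by positivity),
      Finset.card_univ]
    have h5 : (A.card : ℝ) * ((Fintype.card T : ℝ) / A.card) = Fintype.card T := by
      field_simp
    rw [h5]
    linarith
  have h6 : 0 < (∑ s : T, Real.exp (if s ∈ A then lam else 0)) / (univ : Finset T).card := by
    refine div_pos ?_ (by rw [Finset.card_univ]; exact hT0)
    exact Finset.sum_pos (fun s _ => Real.exp_pos _) (by
      rw [← Finset.card_pos, Finset.card_univ]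
      exact_mod_cast hT0)
  have h7 := Real.log_le_log h6 h3
  rw [Finset.card_univ] at h1 h7
  linarith

variable {K : ℕ} (d : NDat K)

/-- The digits of the unknown numbers. -/
noncomputable def cl (s : ℕ) (l : d.Lam) : Fin K → ℤ :=
  fun j => ⌊(2 : ℝ) ^ s * ((d.v l j : ℝ) / 2 ^ d.X)⌋

/-- Pairs of samples of one line at the scale `i`. -/
noncomputable def Qp (i : ℕ) : d.Om × d.Om → ℝ := dbl d.P (fun ω => (d.L ω, d.Ti i ω))

/-- The probability that the form of the pair `w` is not atomic in the cell. -/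
noncomputable def bad (s i k₁ : ℕ) (w : d.Om × d.Om) : ℝ :=
  Pr (cond d.P (fun v => cl d s (d.L v)) (cl d s (d.L w.1)))
    {v | (2 : ℝ) ^ (-((s : ℤ) + i + k₁)) ≤
      |d.toR.ZR (d.T w.1) (d.T w.2) (d.v (d.L w.1)) - d.toR.ZR (d.T w.1) (d.T w.2) (d.v (d.L v))|}

/-- The next digits are near those of `ω`, in most of the cell. -/
def Gd (s r : ℕ) (a : ℝ) (ω : d.Om) : Prop :=
  Pr (cond d.P (fun v => cl d s (d.L v)) (cl d s (d.L ω)))
    {v | ∃ j, 1 < |cl d (s + r) (d.L v) j - cl d (s + r) (d.L ω) j|} ≤ a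

lemma cl_div (s r : ℕ) (l : d.Lam) (j : Fin K) : cl d s l j = cl d (s + r) l j / 2 ^ r := by
  have h : (2 : ℝ) ^ s * ((d.v l j : ℝ) / 2 ^ d.X) =
      ((2 : ℝ) ^ (s + r) * ((d.v l j : ℝ) / 2 ^ d.X)) / ((2 ^ r : ℕ) : ℝ) := by
    rw [pow_add]
    push_cast
    field_simp
  unfold cl
  rw [h, Int.floor_div_natCast]
  push_cast
  rfl

lemma cl_mem (s r : ℕ) (l : d.Lam) (j : Fin K) :
    cl d (s + r) l j ∈ Finset.Ico (2 ^ r * cl d s l j) (2 ^ r * (cl d s l j + 1)) := by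
  have h := cl_div d s r l j
  have h2 : (0 : ℤ) < 2 ^ r := by positivity
  generalize cl d (s + r) l j = a at h ⊢
  rw [h]
  refine Finset.mem_Ico.mpr ⟨?_, ?_⟩
  · rw [mul_comm]
    exact Int.ediv_mul_le _ h2.ne'
  · rw [mul_comm]
    exact Int.lt_ediv_add_one_mul_self _ h2

lemma cl_anti {s r : ℕ} (h : s ≤ r) {l l' : d.Lam} (hc : cl d r l = cl d r l') :
    cl d s l = cl d s l' := by
  obtain ⟨t, rfl⟩ := Nat.exists_eq_add_of_le h
  funext j
  rw [cl_div d s t, cl_div d s t, hc]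

lemma cl_near {s : ℕ} {l l' : d.Lam} (hc : cl d s l = cl d s l') (j : Fin K) :
    |(d.v l j : ℝ) / 2 ^ d.X - (d.v l' j : ℝ) / 2 ^ d.X| ≤ 1 / 2 ^ s := by
  have h1 := congrFun hc j
  unfold cl at h1
  have e1 := Int.floor_le ((2 : ℝ) ^ s * ((d.v l j : ℝ) / 2 ^ d.X))
  have e2 := Int.lt_floor_add_one ((2 : ℝ) ^ s * ((d.v l j : ℝ) / 2 ^ d.X))
  have e3 := Int.floor_le ((2 : ℝ) ^ s * ((d.v l' j : ℝ) / 2 ^ d.X))
  have e4 := Int.lt_floor_add_one ((2 : ℝ) ^ s * ((d.v l' j : ℝ) / 2 ^ d.X))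
  rw [h1] at e1 e2
  have hpos : (0 : ℝ) < 2 ^ s := by positivity
  rw [le_div_iff₀ hpos, ← abs_of_pos hpos, ← abs_mul, abs_le]
  constructor <;> nlinarith

lemma cl_close {s : ℕ} {l l' : d.Lam} {j : Fin K}
    (h : |(d.v l j : ℝ) / 2 ^ d.X - (d.v l' j : ℝ) / 2 ^ d.X| ≤ 1 / 2 ^ s) :
    |cl d s l' j - cl d s l j| ≤ 1 := by
  unfold cl
  have hpos : (0 : ℝ) < 2 ^ s := by positivity
  have h1 : |(2 : ℝ) ^ s * ((d.v l j : ℝ) / 2 ^ d.X) -
      (2 : ℝ) ^ s * ((d.v l' j : ℝ) / 2 ^ d.X)| ≤ 1 := by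
    rw [← mul_sub, abs_mul, abs_of_pos hpos]
    calc (2 : ℝ) ^ s * |(d.v l j : ℝ) / 2 ^ d.X - (d.v l' j : ℝ) / 2 ^ d.X| ≤
        (2 : ℝ) ^ s * (1 / 2 ^ s) := mul_le_mul_of_nonneg_left h hpos.le
      _ = 1 := by field_simp
  have h2 := abs_le.1 h1
  have e1 := Int.floor_le ((2 : ℝ) ^ s * ((d.v l j : ℝ) / 2 ^ d.X))
  have e2 := Int.lt_floor_add_one ((2 : ℝ) ^ s * ((d.v l j : ℝ) / 2 ^ d.X))
  have e3 := Int.floor_le ((2 : ℝ) ^ s * ((d.v l' j : ℝ) / 2 ^ d.X))
  have e4 := Int.lt_floor_add_one ((2 : ℝ) ^ s * ((d.v l' j : ℝ) / 2 ^ d.X))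
  generalize ⌊(2 : ℝ) ^ s * ((d.v l j : ℝ) / 2 ^ d.X)⌋ = a at e1 e2 ⊢
  generalize ⌊(2 : ℝ) ^ s * ((d.v l' j : ℝ) / 2 ^ d.X)⌋ = b at e3 e4 ⊢
  have h3 : (b : ℝ) - a < 2 := by linarith
  have h4 : (a : ℝ) - b < 2 := by linarith
  have h5 : b - a < 2 := by exact_mod_cast h3
  have h6 : a - b < 2 := by exact_mod_cast h4
  rw [abs_le]
  constructor <;> omega

/-- One step of the telescope. -/
lemma step (hP : IsLaw d.P) (s r : ℕ) {a : ℝ} (ha : 0 ≤ a) :
    CH d.P (fun ω => cl d (s + r) (d.L ω)) (fun ω => cl d s (d.L ω)) ≤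
      Real.log 2 + K * Real.log 3 +
        (a + Pr d.P {ω | ¬ Gd d s r a ω}) * (K * (r * Real.log 2)) := by
  classical
  obtain ⟨f, -, hf⟩ := Pool.OCN.select hP.nonneg (fun ω => cl d s (d.L ω))
    (fun _ (z : Fin K → ℤ) => {ω | ∃ j, 1 < |cl d (s + r) (d.L ω) j - z j|})
    (fun g z => Pr (cond d.P (fun v => cl d s (d.L v)) g)
      {ω | ∃ j, 1 < |cl d (s + r) (d.L ω) j - z j|} ≤ a) (fun _ => 0) ha (fun g z h => h)
  have h1 := Pool.OCT.ch_exc hP (fun ω => cl d (s + r) (d.L ω)) (fun ω => cl d s (d.L ω))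
    (fun g => Fintype.piFinset fun j => Finset.Icc (f g j - 1) (f g j + 1))
    (fun g => Fintype.piFinset fun j => Finset.Ico (2 ^ r * g j) (2 ^ r * (g j + 1)))
    (κ := 3 ^ K) (L := (2 ^ r) ^ K) (one_le_pow₀ (by norm_num))
    (one_le_pow₀ (one_le_pow₀ (by norm_num)))
    (by
      intro g
      rw [Fintype.card_piFinset]
      have : ∀ j : Fin K, (Finset.Icc (f g j - 1) (f g j + 1)).card = 3 := by
        intro j
        rw [Int.card_Icc]
        omega
      rw [Finset.prod_congr rfl fun j _ => this j, Finset.prod_const, Finset.card_univ,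
        Fintype.card_fin]
      push_cast
      exact le_rfl)
    (by
      intro g
      rw [Fintype.card_piFinset]
      have : ∀ j : Fin K, (Finset.Ico (2 ^ r * g j) (2 ^ r * (g j + 1))).card = 2 ^ r := by
        intro j
        rw [Int.card_Ico]
        have e : (2 ^ r * (g j + 1) - 2 ^ r * g j : ℤ) = ((2 ^ r : ℕ) : ℤ) := by
          push_cast
          ring
        rw [e, Int.toNat_natCast]
      rw [Finset.prod_congr rfl fun j _ => this j, Finset.prod_const, Finset.card_univ,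
        Fintype.card_fin]
      push_cast
      exact le_rfl)
    (by
      intro ω _
      rw [Fintype.mem_piFinset]
      intro j
      exact cl_mem d s r (d.L ω) j)
  have h2 : Pr d.P {ω | cl d (s + r) (d.L ω) ∉ Fintype.piFinset fun j =>
      Finset.Icc (f (cl d s (d.L ω)) j - 1) (f (cl d s (d.L ω)) j + 1)} ≤
      a + Pr d.P {ω | ¬ Gd d s r a ω} := by
    rw [hP.sum_one, mul_one] at hf
    refine le_trans (le_of_eq ?_) (hf.trans ?_)
    · congr 1
      ext ω
      simp only [Set.mem_ofPred_eq, Fintype.mem_piFinset, Finset.mem_Icc, not_forall]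
      refine exists_congr fun j => ?_
      rw [lt_abs]
      constructor
      · intro h
        by_contra hcon
        push Not at hcon
        exact h ⟨by linarith [hcon.2], by linarith [hcon.1]⟩
      · rintro (h | h) ⟨h3, h4⟩ <;> linarith
    · refine add_le_add_right ?_ a
      rw [Pr_eq, Pr_eq]
      refine Finset.sum_le_sum fun ω _ => ?_
      by_cases h3 : ω ∈ {ω | ¬ Gd d s r a ω}
      · rw [if_pos h3]
        split_ifs
        · exact le_rfl
        · exact hP.nonneg ω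
      · rw [if_neg h3, if_neg]
        intro h4
        exact h4 ⟨cl d (s + r) (d.L ω), not_not.1 h3⟩
  have h3 : Real.log (((2 : ℝ) ^ r) ^ K) = K * (r * Real.log 2) := by
    rw [Real.log_pow, Real.log_pow]
  have h4 : Real.log ((3 : ℝ) ^ K) = K * Real.log 3 := by
    rw [Real.log_pow]
  rw [h3, h4] at h1
  refine h1.trans ?_
  have h5 : 0 ≤ (K : ℝ) * (r * Real.log 2) := by
    have := Real.log_nonneg (show (1 : ℝ) ≤ 2 by norm_num)
    positivity
  have := mul_le_mul_of_nonneg_right h2 h5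
  linarith

lemma Pr_union {Ω ι : Type} [Fintype Ω] [Fintype ι] {q : Ω → ℝ} (hq : ∀ ω, 0 ≤ q ω) (E : Set Ω)
    (F : ι → Set Ω) (h : ∀ v, 0 < q v → v ∈ E → ∃ i, v ∈ F i) : Pr q E ≤ ∑ i, Pr q (F i) := by
  classical
  simp only [Pr_eq]
  rw [Finset.sum_comm]
  refine Finset.sum_le_sum fun v _ => ?_
  have hn : ∀ i, 0 ≤ (if v ∈ F i then q v else 0) := fun i => by
    split_ifs
    · exact hq v
    · exact le_rfl
  by_cases hv : v ∈ E
  · rcases (hq v).lt_or_eq with h0 | h0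
    · obtain ⟨i, hi⟩ := h v h0 hv
      rw [if_pos hv]
      refine le_trans ?_ (Finset.single_le_sum (fun i _ => hn i) (Finset.mem_univ i))
      rw [if_pos hi]
    · rw [if_pos hv, ← h0]
      exact Finset.sum_nonneg fun i _ => by split_ifs <;> exact le_rfl
  · rw [if_neg hv]
    exact Finset.sum_nonneg fun i _ => hn i

/-- Separated bases with atomic forms. -/
lemma gd_of_bases (K k' : ℕ) : ∃ B : ℝ, 1 ≤ B ∧ ∀ (d : NDat (K + 1)) (A : ℕ), d.OK A →
    ∀ (s r k₁ k'' : ℕ) (a : ℝ) (ω : d.Om) (b c : Fin (K + 1) → d.Om) (i : Fin (K + 1) → ℕ),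
      B * 2 ^ (k'' + r) ≤ 2 ^ k₁ → (∀ p, d.L (b p) = d.L ω) →
      (∀ p q, p ≠ q → 1 / 2 ^ k' ≤ |d.th (d.T (b p)) - d.th (d.T (b q))|) →
      (∀ p, |d.th (d.T (c p)) - d.th (d.T (b p))| ≤ 1 / 2 ^ (k' + 2)) →
      (∀ p, (2 : ℝ) ^ (-((i p : ℤ) + k'')) ≤ |d.th (d.T (c p)) - d.th (d.T (b p))|) →
      (∀ p, bad d s (i p) k₁ (b p, c p) ≤ a) → Gd d s r ((K + 1) * a) ω := by
  obtain ⟨B, hB1, hB⟩ := mv_step K k'
  refine ⟨B, hB1, ?_⟩
  intro d A hOK s r k₁ k'' a ω b c i hBk hL hsep hclose hfar hbad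
  unfold Gd
  set q := cond d.P (fun v => cl d s (d.L v)) (cl d s (d.L ω)) with hq
  have hq0 : ∀ v, 0 ≤ q v := cond_nonneg hOK.law.nonneg _ _
  have hu := Pr_union hq0 {v | ∃ j, 1 < |cl d (s + r) (d.L v) j - cl d (s + r) (d.L ω) j|}
    (fun p : Fin (K + 1) => {v | (2 : ℝ) ^ (-((s : ℤ) + i p + k₁)) ≤
      |d.toR.ZR (d.T (b p)) (d.T (c p)) (d.v (d.L (b p))) -
        d.toR.ZR (d.T (b p)) (d.T (c p)) (d.v (d.L v))|})
    (by
      intro v hv hj
      by_contra hcon
      push Not at hcon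
      obtain ⟨j, hj⟩ := hj
      set w : Fin (K + 1) → ℝ := fun j =>
        (d.v (d.L ω) j : ℝ) / 2 ^ d.X - (d.v (d.L v) j : ℝ) / 2 ^ d.X with hw
      set m : ℝ := (2 : ℝ) ^ (-((s : ℤ) + k₁ - k'')) with hm
      have h2 : (0 : ℝ) < 2 := by norm_num
      have h3 := hB w (fun p => d.th (d.T (b p))) (fun p => d.th (d.T (c p))) m
        (fun p => ⟨(hOK.hth _).1, (hOK.hth _).2.le⟩) (fun p => ⟨(hOK.hth _).1, (hOK.hth _).2.le⟩)
        hsep hclose
        (fun p => by
          intro h4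
          have h5 := hfar p
          rw [h4, sub_self, abs_zero] at h5
          have h6 : (0 : ℝ) < (2 : ℝ) ^ (-((i p : ℤ) + k'')) := by positivity
          linarith)
        (fun p => by
          have h4 := hcon p
          rw [Set.mem_ofPred_eq, not_le] at h4
          have h5 : d.toR.ZR (d.T (b p)) (d.T (c p)) (d.v (d.L (b p))) -
              d.toR.ZR (d.T (b p)) (d.T (c p)) (d.v (d.L v)) =
              ∑ j : Fin (K + 1), w j * (d.th (d.T (c p)) ^ (j.val + 1) -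
                d.th (d.T (b p)) ^ (j.val + 1)) := by
            rw [hL p]
            show (∑ j : Fin (K + 1), ((d.v (d.L ω) j : ℝ) / 2 ^ d.X) *
                (d.th (d.T (c p)) ^ (j.val + 1) - d.th (d.T (b p)) ^ (j.val + 1)) +
                (d.s (d.T (c p)) - d.s (d.T (b p)))) -
              (∑ j : Fin (K + 1), ((d.v (d.L v) j : ℝ) / 2 ^ d.X) *
                (d.th (d.T (c p)) ^ (j.val + 1) - d.th (d.T (b p)) ^ (j.val + 1)) +
                (d.s (d.T (c p)) - d.s (d.T (b p)))) = _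
            rw [add_sub_add_right_eq_sub, ← Finset.sum_sub_distrib]
            refine Finset.sum_congr rfl fun j _ => ?_
            rw [hw]
            ring
          rw [h5] at h4
          refine h4.le.trans ?_
          calc (2 : ℝ) ^ (-((s : ℤ) + i p + k₁)) = m * (2 : ℝ) ^ (-((i p : ℤ) + k'')) := by
                rw [hm, ← zpow_add₀ h2.ne']
                congr 1
                ring
            _ ≤ _ := mul_le_mul_of_nonneg_left (hfar p) (by positivity)) j
      have h4 : B * m ≤ 1 / 2 ^ (s + r) := by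
        have h5 : m = 2 ^ k'' / (2 ^ s * 2 ^ k₁) := by
          rw [hm, show -((s : ℤ) + k₁ - k'') = (k'' : ℤ) - (s + k₁ : ℕ) by push_cast; ring,
            zpow_sub₀ h2.ne', zpow_natCast, zpow_natCast, pow_add]
        rw [h5, le_div_iff₀ (by positivity), pow_add]
        have h6 : B * (2 ^ k'' / (2 ^ s * 2 ^ k₁)) * (2 ^ s * 2 ^ r) =
            B * 2 ^ (k'' + r) / 2 ^ k₁ := by
          rw [pow_add]
          field_simp
        rw [h6, div_le_one (by positivity)]
        exact hBk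
      have h5 := cl_close d (h3.trans h4)
      linarith)
  refine hu.trans ?_
  have h1 : ∀ p : Fin (K + 1), Pr q {v | (2 : ℝ) ^ (-((s : ℤ) + i p + k₁)) ≤
      |d.toR.ZR (d.T (b p)) (d.T (c p)) (d.v (d.L (b p))) -
        d.toR.ZR (d.T (b p)) (d.T (c p)) (d.v (d.L v))|} ≤ a := by
    intro p
    have h2 := hbad p
    unfold bad at h2
    simp only at h2
    rw [hL p] at h2 ⊢
    exact h2
  refine (Finset.sum_le_sum fun p _ => h1 p).trans ?_
  rw [Finset.sum_const, Finset.card_univ, Fintype.card_fin, nsmul_eq_mul]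
  push_cast
  exact le_rfl

/-- Choice of separated bases on one line. -/
lemma pick_bases {K : ℕ} (d : NDat (K + 1)) {A : ℕ} (hOK : d.OK A) (k' : ℕ)
    (hk : 16 * (K + 1) ≤ 2 ^ k') {ω : d.Om} (hω : 0 < d.P ω) (Nice : Set d.Om)
    (hN : Pr (cond d.P d.L (d.L ω)) Niceᶜ ≤ 1 / 2)
    (hH : k' * Real.log 2 - 1 / 4 ≤ H (cond d.P d.L (d.L ω)) (d.Ti k')) :
    ∃ b : Fin (K + 1) → d.Om, (∀ p, 0 < d.P (b p) ∧ d.L (b p) = d.L ω ∧ b p ∈ Nice) ∧
      ∀ p q, p ≠ q → 1 / 2 ^ k' ≤ |d.th (d.T (b p)) - d.th (d.T (b q))| := by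
  classical
  set q := cond d.P d.L (d.L ω) with hq
  have hql : IsLaw q := ⟨cond_nonneg hOK.law.nonneg _ _,
    sum_cond d.P d.L (law_pos hOK.law.nonneg d.L hω).ne'⟩
  have hr : ∀ v : d.Om, 0 ≤ d.Ti k' v ∧ d.Ti k' v < 2 ^ k' := by
    intro v
    have h1 := hOK.hth (d.T v)
    unfold NDat.Ti
    constructor
    · exact Int.floor_nonneg.2 (mul_nonneg (by positivity) h1.1)
    · rw [Int.floor_lt]
      push_cast
      calc (2 : ℝ) ^ k' * d.th (d.T v) < 2 ^ k' * 1 :=
            mul_lt_mul_of_pos_left h1.2 (by positivity)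
        _ = 2 ^ k' := mul_one _
  set Y : d.Om → Fin (2 ^ k') := fun v => ⟨(d.Ti k' v).toNat, by
    have := hr v
    have h2 : (((d.Ti k' v).toNat : ℕ) : ℤ) < ((2 ^ k' : ℕ) : ℤ) := by
      rw [Int.toNat_of_nonneg this.1]
      push_cast
      exact this.2
    exact_mod_cast h2⟩ with hY
  have hYT : ∀ v, ((Y v : ℕ) : ℤ) = d.Ti k' v := fun v => Int.toNat_of_nonneg (hr v).1
  have hHY : H q Y = H q (d.Ti k') := by
    have h1 := H_comp_injective hql.nonneg Y (f := fun z : Fin (2 ^ k') => ((z : ℕ) : ℤ))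
      (fun x y h => by
        have h' : ((x : ℕ) : ℤ) = ((y : ℕ) : ℤ) := h
        exact Fin.ext (by exact_mod_cast h'))
    rw [← h1]
    congr 1
    funext v
    exact hYT v
  set G : d.Om → Prop := fun v => 0 < d.P v ∧ d.L v = d.L ω ∧ v ∈ Nice with hG
  set S : Finset (Fin (2 ^ k')) := (univ.filter G).image Y with hS
  have hmass : 1 / 2 ≤ ∑ v, if G v then q v else 0 := by
    have h1 : (∑ v, if G v then q v else 0) + Pr q Niceᶜ = 1 := by
      rw [Pr_eq, ← Finset.sum_add_distrib, ← hql.sum_one]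
      refine Finset.sum_congr rfl fun v _ => ?_
      by_cases h2 : v ∈ Nice
      · rw [if_neg (show v ∉ Niceᶜ from fun h => h h2), add_zero]
        by_cases h3 : 0 < q v
        · have h4 := (cond_pos_iff hOK.law.nonneg d.L (d.L ω) v).1 h3
          rw [if_pos ⟨h4.1, h4.2, h2⟩]
        · have h4 : q v = 0 := le_antisymm (not_lt.1 h3) (hql.nonneg v)
          rw [h4]
          simp
      · rw [if_pos (show v ∈ Niceᶜ from h2), if_neg fun h => h2 h.2.2, zero_add]
    linarith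
  obtain ⟨hS0, hSl⟩ := card_lb hql Y G S (fun v hv => by
    rw [hS]
    exact Finset.mem_image_of_mem _ (Finset.mem_filter.2 ⟨Finset.mem_univ _, hv⟩)) hmass
  have hS0r : (0 : ℝ) < S.card := by exact_mod_cast hS0
  have hcard : Real.log (Fintype.card (Fin (2 ^ k'))) = k' * Real.log 2 := by
    rw [Fintype.card_fin]
    push_cast
    rw [Real.log_pow]
  rw [hcard, hHY] at hSl
  have hlog2 : Real.log 2 < 0.6931471808 := Real.log_two_lt_d9
  have hlog2' : 0.6931471803 < Real.log 2 := Real.log_two_gt_d9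
  have h8 : Real.log ((Fintype.card (Fin (2 ^ k')) : ℝ) / S.card) ≤ Real.log 8 := by
    have e1 : Real.log 8 = 3 * Real.log 2 := by
      rw [show (8 : ℝ) = 2 ^ 3 by norm_num, Real.log_pow]
      norm_num
    rw [e1]
    linarith
  have h9 : (Fintype.card (Fin (2 ^ k')) : ℝ) / S.card ≤ 8 := by
    rw [Fintype.card_fin] at h8 ⊢
    push_cast at h8 ⊢
    exact (Real.log_le_log_iff (by positivity) (by norm_num)).1 h8
  rw [Fintype.card_fin, div_le_iff₀ hS0r] at h9
  have h10 : 2 * (K + 1) ≤ S.card := by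
    have h11 : ((2 ^ k' : ℕ) : ℝ) ≤ ((8 * S.card : ℕ) : ℝ) := by
      push_cast at h9 ⊢
      exact h9
    have h12 : 2 ^ k' ≤ 8 * S.card := by exact_mod_cast h11
    omega
  set S' : Finset ℤ := S.image (fun z : Fin (2 ^ k') => ((z : ℕ) : ℤ)) with hS'
  have hS'c : S'.card = S.card := Finset.card_image_of_injective _ fun x y h => by
    have h' : ((x : ℕ) : ℤ) = ((y : ℕ) : ℤ) := h
    exact Fin.ext (by exact_mod_cast h')
  obtain ⟨f, hf, hf2⟩ := pick S' (K + 1) (by rw [hS'c]; exact h10)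
  have h13 : ∀ p, ∃ v, G v ∧ d.Ti k' v = f p := by
    intro p
    have h1 := hf p
    rw [hS', Finset.mem_image] at h1
    obtain ⟨z, hz, hz2⟩ := h1
    rw [hS, Finset.mem_image] at hz
    obtain ⟨v, hv, hv2⟩ := hz
    refine ⟨v, (Finset.mem_filter.1 hv).2, ?_⟩
    rw [← hYT, hv2, hz2]
  choose b hb hb2 using h13
  refine ⟨b, hb, fun p r hpr => ?_⟩
  have h1 := hf2 p r hpr
  rw [← hb2 p, ← hb2 r] at h1
  unfold NDat.Ti at h1
  have hpos : (0 : ℝ) < 2 ^ k' := by positivity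
  rw [div_le_iff₀ hpos]
  have e1 := Int.floor_le ((2 : ℝ) ^ k' * d.th (d.T (b p)))
  have e2 := Int.lt_floor_add_one ((2 : ℝ) ^ k' * d.th (d.T (b p)))
  have e3 := Int.floor_le ((2 : ℝ) ^ k' * d.th (d.T (b r)))
  have e4 := Int.lt_floor_add_one ((2 : ℝ) ^ k' * d.th (d.T (b r)))
  generalize ⌊(2 : ℝ) ^ k' * d.th (d.T (b p))⌋ = x at h1 e1 e2
  generalize ⌊(2 : ℝ) ^ k' * d.th (d.T (b r))⌋ = y at h1 e3 e4
  rcases le_abs.1 h1 with h2 | h2
  · have h3 : (2 : ℝ) ≤ (x : ℝ) - y := by exact_mod_cast h2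
    have h4 : 1 ≤ (d.th (d.T (b p)) - d.th (d.T (b r))) * 2 ^ k' := by nlinarith
    exact h4.trans (mul_le_mul_of_nonneg_right (le_abs_self _) hpos.le)
  · have h3 : (2 : ℝ) ≤ -((x : ℝ) - y) := by exact_mod_cast h2
    have h4 : 1 ≤ -(d.th (d.T (b p)) - d.th (d.T (b r))) * 2 ^ k' := by nlinarith
    exact h4.trans (mul_le_mul_of_nonneg_right (neg_le_abs _) hpos.le)

end Pool.M5.NP
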