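import Pool.Agent.H33.M5.N1b
import Pool.Agent.H29.OC.NlcS

/-!
# Prediction lemma N1: most bases have atomic forms; the telescope
-/

set_option autoImplicit false

namespace Pool.M5.NP

open Finset Real
open Pool.Agent.H49.Ent Pool.Agent.H32.Dense Pool.STK Pool.KAF Pool.OC

variable {K : ℕ} (d : NDat K)

/-- The base `ω` has a far partner with an atomic form. -/
def NiceP (i₀ n k'' k₁ : ℕ) (a : ℝ) (s : ℕ) (ω : d.Om) : Prop :=
  ∃ i ∈ Finset.Ico i₀ n, ∃ ω', 0 < Qp d i (ω, ω') ∧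
    (2 : ℝ) ^ (-((i : ℤ) + k'')) ≤ |d.th (d.T ω') - d.th (d.T ω)| ∧ bad d s i k₁ (ω, ω') ≤ a

lemma bad_nonneg (hP : IsLaw d.P) (s i k₁ : ℕ) (w : d.Om × d.Om) : 0 ≤ bad d s i k₁ w := by
  unfold bad
  rw [Pr_eq]
  refine Finset.sum_nonneg fun v _ => ?_
  split_ifs
  · exact cond_nonneg hP.nonneg _ _ v
  · exact le_rfl

open Classical in
lemma nice_one (hP : IsLaw d.P) (J : d.Om → Set ℕ) (h n i₀ k₁ k'' s : ℕ) {u a : ℝ} (h1 : 1 ≤ h)
    (hu : 0 < u) (ha : 0 < a) (hn : 2 * i₀ + 4 * h ≤ n) (hX : s + n + 2 * h ≤ d.X) :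
    u * n / 2 * Pr d.P {ω | ¬ NiceP d i₀ n k'' k₁ a s ω ∧ ∀ j, (j + 2) * h ≤ d.X →
      u * h ≤ (Set.ncard {r | r ∈ J ω ∧ j * h ≤ r ∧ r < (j + 1) * h} : ℝ)} ≤
      ∑ i ∈ Finset.Ico i₀ n, (Pr (Qp d i) {w | |d.th (d.T w.2) - d.th (d.T w.1)| <
        (2 : ℝ) ^ (-((i : ℤ) + k''))} +
        a⁻¹ * Ex (Qp d i) (Set.indicator {w | s + i ∈ J w.1} (bad d s i k₁))) := by
  have hQ0 : ∀ i (w : d.Om × d.Om), 0 ≤ Qp d i w := fun i w => dbl_nonneg hP.nonneg w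
  have ha' : 0 < a⁻¹ := inv_pos.2 ha
  set F : ℕ → d.Om → ℝ := fun i ω => ∑ ω', Qp d i (ω, ω') *
    ((if |d.th (d.T ω') - d.th (d.T ω)| < (2 : ℝ) ^ (-((i : ℤ) + k'')) then 1 else 0) +
      a⁻¹ * Set.indicator {w : d.Om × d.Om | s + i ∈ J w.1} (bad d s i k₁) (ω, ω')) with hF
  have hind : ∀ i (w : d.Om × d.Om),
      0 ≤ Set.indicator {w : d.Om × d.Om | s + i ∈ J w.1} (bad d s i k₁) w := fun i w =>
    Set.indicator_nonneg (fun w _ => bad_nonneg d hP s i k₁ w) w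
  have hF0 : ∀ i ω, 0 ≤ F i ω := by
    intro i ω
    rw [hF]
    refine Finset.sum_nonneg fun ω' _ => mul_nonneg (hQ0 i _) ?_
    have := mul_nonneg ha'.le (hind i (ω, ω'))
    split_ifs <;> linarith
  have hsum : ∀ i, ∑ ω, F i ω = Pr (Qp d i) {w | |d.th (d.T w.2) - d.th (d.T w.1)| <
        (2 : ℝ) ^ (-((i : ℤ) + k''))} +
        a⁻¹ * Ex (Qp d i) (Set.indicator {w | s + i ∈ J w.1} (bad d s i k₁)) := by
    intro i
    rw [hF]
    simp only
    rw [← Fintype.sum_prod_type' (f := fun ω ω' => Qp d i (ω, ω') *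
      ((if |d.th (d.T ω') - d.th (d.T ω)| < (2 : ℝ) ^ (-((i : ℤ) + k'')) then 1 else 0) +
      a⁻¹ * Set.indicator {w : d.Om × d.Om | s + i ∈ J w.1} (bad d s i k₁) (ω, ω')))]
    rw [Pr_eq, Ex, Finset.mul_sum, ← Finset.sum_add_distrib]
    refine Finset.sum_congr rfl fun w _ => ?_
    by_cases h2 : |d.th (d.T w.2) - d.th (d.T w.1)| < (2 : ℝ) ^ (-((i : ℤ) + k''))
    · rw [if_pos h2, if_pos (show w ∈ {w : d.Om × d.Om | |d.th (d.T w.2) - d.th (d.T w.1)| <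
        (2 : ℝ) ^ (-((i : ℤ) + k''))} from h2)]
      ring
    · rw [if_neg h2, if_neg (show w ∉ {w : d.Om × d.Om | |d.th (d.T w.2) - d.th (d.T w.1)| <
        (2 : ℝ) ^ (-((i : ℤ) + k''))} from h2)]
      ring
  rw [← Finset.sum_congr rfl fun i _ => hsum i, Finset.sum_comm, Pr_eq, Finset.mul_sum]
  refine Finset.sum_le_sum fun ω _ => ?_
  by_cases hω : ω ∈ {ω | ¬ NiceP d i₀ n k'' k₁ a s ω ∧ ∀ j, (j + 2) * h ≤ d.X →
      u * h ≤ (Set.ncard {r | r ∈ J ω ∧ j * h ≤ r ∧ r < (j + 1) * h} : ℝ)}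
  swap
  · rw [if_neg hω, mul_zero]
    exact Finset.sum_nonneg fun i _ => hF0 i ω
  rw [if_pos hω]
  rcases (hP.nonneg ω).lt_or_eq with hp | hp
  swap
  · rw [← hp, mul_zero]
    exact Finset.sum_nonneg fun i _ => hF0 i ω
  obtain ⟨hnice, hJ⟩ := hω
  have hc := count_rows (J ω) (X := d.X) (n := n) (h := h) (i₀ := i₀) (s := s) h1 hu.le hJ hn hX
  calc u * n / 2 * d.P ω ≤ (((Finset.Ico i₀ n).filter fun i => s + i ∈ J ω).card : ℝ) * d.P ω :=
        mul_le_mul_of_nonneg_right hc hp.le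
    _ = ∑ i ∈ (Finset.Ico i₀ n).filter fun i => s + i ∈ J ω, d.P ω := by
        rw [Finset.sum_const, nsmul_eq_mul]
    _ ≤ ∑ i ∈ (Finset.Ico i₀ n).filter fun i => s + i ∈ J ω, F i ω := by
        refine Finset.sum_le_sum fun i hi => ?_
        obtain ⟨hi1, hi2⟩ := Finset.mem_filter.1 hi
        have hone : ∑ ω', Qp d i (ω, ω') = d.P ω := by
          have h2 : ∀ ω', Qp d i (ω, ω') = d.P ω *
              cond d.P (fun ω => (d.L ω, d.Ti i ω)) (d.L ω, d.Ti i ω) ω' := fun ω' =>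
            Pool.OC.dbl_mul d.P (fun ω => (d.L ω, d.Ti i ω)) ω ω'
          rw [Finset.sum_congr rfl fun ω' _ => h2 ω', ← Finset.mul_sum,
            sum_cond d.P _ (law_pos hP.nonneg (fun ω => (d.L ω, d.Ti i ω)) hp).ne', mul_one]
        rw [← hone, hF]
        simp only
        refine Finset.sum_le_sum fun ω' _ => ?_
        rcases (hQ0 i (ω, ω')).lt_or_eq with hq | hq
        swap
        · rw [← hq, zero_mul]
        refine le_mul_of_one_le_right hq.le ?_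
        by_cases h3 : |d.th (d.T ω') - d.th (d.T ω)| < (2 : ℝ) ^ (-((i : ℤ) + k''))
        · rw [if_pos h3]
          have := mul_nonneg ha'.le (hind i (ω, ω'))
          linarith
        · rw [if_neg h3, zero_add]
          have h4 : a < bad d s i k₁ (ω, ω') := by
            by_contra hcon
            exact hnice ⟨i, hi1, ω', hq, not_lt.1 h3, not_lt.1 hcon⟩
          rw [Set.indicator_of_mem (show (ω, ω') ∈ {w : d.Om × d.Om | s + i ∈ J w.1} from hi2),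
            ← inv_mul_cancel₀ ha.ne']
          exact mul_le_mul_of_nonneg_left h4.le ha'.le
    _ ≤ ∑ i ∈ Finset.Ico i₀ n, F i ω :=
        Finset.sum_le_sum_of_subset_of_nonneg (Finset.filter_subset _ _) fun i _ _ => hF0 i ω

/-- Most bases have atomic forms at most depths. -/
lemma nice_sum (hP : IsLaw d.P) (J : d.Om → Set ℕ) (h n i₀ k₁ k'' S : ℕ) {u a e π₁ ε₈ : ℝ}
    (h1 : 1 ≤ h) (hu : 0 < u) (ha : 0 < a) (hn : 2 * i₀ + 4 * h ≤ n) (hX : S + n + 2 * h ≤ d.X)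
    (hJ1 : d.toR.J1 J h u π₁ ∅)
    (hTB : ∑ i ∈ Finset.Ico i₀ n, Pr (Qp d i) {w | |d.th (d.T w.2) - d.th (d.T w.1)| <
        (2 : ℝ) ^ (-((i : ℤ) + k''))} ≤ ε₈ * n)
    (hRow : ∀ i < n, ∑ s ∈ range d.X,
      Ex (Qp d i) (Set.indicator {w | s + i ∈ J w.1} (bad d s i k₁)) ≤ e * d.X) :
    ∑ s ∈ range S, Pr d.P {ω | ¬ NiceP d i₀ n k'' k₁ a s ω} ≤
      S * π₁ + 2 / u * (S * ε₈ + a⁻¹ * (e * d.X)) := by
  classical
  have hn0 : (0 : ℝ) < n := by
    have : 0 < n := by omega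
    exact_mod_cast this
  have hQ0 : ∀ i (w : d.Om × d.Om), 0 ≤ Qp d i w := fun i w => dbl_nonneg hP.nonneg w
  have ha' : 0 < a⁻¹ := inv_pos.2 ha
  have hone : ∀ s ∈ range S, Pr d.P {ω | ¬ NiceP d i₀ n k'' k₁ a s ω} ≤ π₁ + 2 / (u * n) *
      ∑ i ∈ Finset.Ico i₀ n, (Pr (Qp d i) {w | |d.th (d.T w.2) - d.th (d.T w.1)| <
        (2 : ℝ) ^ (-((i : ℤ) + k''))} +
        a⁻¹ * Ex (Qp d i) (Set.indicator {w | s + i ∈ J w.1} (bad d s i k₁))) := by
    intro s hs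
    have hsS := Finset.mem_range.1 hs
    have h2 := nice_one d hP J h n i₀ k₁ k'' s h1 hu ha hn (by omega)
    set G : Set d.Om := {ω | ¬ NiceP d i₀ n k'' k₁ a s ω ∧ ∀ j, (j + 2) * h ≤ d.X →
      u * h ≤ (Set.ncard {r | r ∈ J ω ∧ j * h ≤ r ∧ r < (j + 1) * h} : ℝ)} with hG
    have h3 : Pr d.P {ω | ¬ NiceP d i₀ n k'' k₁ a s ω} ≤ π₁ + Pr d.P G := by
      refine le_trans ?_ (add_le_add_left hJ1 (Pr d.P G))
      have hPr : ∀ E : Set d.Om, Pr d.P E = ∑ ω, if ω ∈ E then d.P ω else 0 := fun E => Pr_eq ..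
      have e1 : Pr d.toR.P {ω | ∃ j : ℕ, j ∉ (∅ : Set ℕ) ∧ (j + 2) * h ≤ d.toR.X ∧
          (Set.ncard {r | r ∈ J ω ∧ j * h ≤ r ∧ r < (j + 1) * h} : ℝ) < u * h} =
          ∑ ω : d.Om, if ω ∈ {ω : d.Om | ∃ j : ℕ, j ∉ (∅ : Set ℕ) ∧ (j + 2) * h ≤ d.X ∧
          (Set.ncard {r | r ∈ J ω ∧ j * h ≤ r ∧ r < (j + 1) * h} : ℝ) < u * h}
            then d.P ω else 0 := hPr _
      rw [e1, hPr, hPr, ← Finset.sum_add_distrib]
      refine Finset.sum_le_sum fun ω _ => ?_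
      have h0 := hP.nonneg ω
      by_cases h4 : ω ∈ {ω | ¬ NiceP d i₀ n k'' k₁ a s ω}
      · rw [if_pos h4]
        by_cases h5 : ω ∈ G
        · rw [if_pos h5]
          split_ifs <;> linarith
        · have h6 : ω ∈ {ω : d.Om | ∃ j : ℕ, j ∉ (∅ : Set ℕ) ∧ (j + 2) * h ≤ d.X ∧
              (Set.ncard {r | r ∈ J ω ∧ j * h ≤ r ∧ r < (j + 1) * h} : ℝ) < u * h} := by
            by_contra hcon
            refine h5 ⟨h4, fun j hj => ?_⟩
            by_contra h7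
            exact hcon ⟨j, Set.notMem_empty j, hj, not_le.1 h7⟩
          rw [if_neg h5, if_pos h6]
          linarith
      · rw [if_neg h4]
        split_ifs <;> linarith
    refine h3.trans (add_le_add_right ?_ π₁)
    have h4 : Pr d.P G = 2 / (u * n) * (u * n / 2 * Pr d.P G) := by
      field_simp
    rw [h4]
    exact mul_le_mul_of_nonneg_left h2 (by positivity)
  refine (Finset.sum_le_sum hone).trans ?_
  rw [Finset.sum_add_distrib, Finset.sum_const, Finset.card_range, nsmul_eq_mul]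
  refine add_le_add_right ?_ _
  rw [← Finset.mul_sum]
  have h5 : ∑ s ∈ range S, ∑ i ∈ Finset.Ico i₀ n,
      (Pr (Qp d i) {w | |d.th (d.T w.2) - d.th (d.T w.1)| < (2 : ℝ) ^ (-((i : ℤ) + k''))} +
        a⁻¹ * Ex (Qp d i) (Set.indicator {w | s + i ∈ J w.1} (bad d s i k₁))) ≤
      n * (S * ε₈ + a⁻¹ * (e * d.X)) := by
    rw [Finset.sum_comm]
    have h6 : ∀ i ∈ Finset.Ico i₀ n, ∑ s ∈ range S,
      (Pr (Qp d i) {w | |d.th (d.T w.2) - d.th (d.T w.1)| < (2 : ℝ) ^ (-((i : ℤ) + k''))} +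
        a⁻¹ * Ex (Qp d i) (Set.indicator {w | s + i ∈ J w.1} (bad d s i k₁))) ≤
      S * Pr (Qp d i) {w | |d.th (d.T w.2) - d.th (d.T w.1)| < (2 : ℝ) ^ (-((i : ℤ) + k''))} +
        a⁻¹ * (e * d.X) := by
      intro i hi
      rw [Finset.sum_add_distrib, Finset.sum_const, Finset.card_range, nsmul_eq_mul,
        ← Finset.mul_sum]
      refine add_le_add_right (mul_le_mul_of_nonneg_left ?_ ha'.le) _
      refine le_trans ?_ (hRow i (Finset.mem_Ico.1 hi).2)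
      refine Finset.sum_le_sum_of_subset_of_nonneg ?_ ?_
      · intro s hs
        rw [Finset.mem_range] at hs ⊢
        omega
      · intro s _ _
        refine Finset.sum_nonneg fun w _ => mul_nonneg (hQ0 i w) ?_
        exact Set.indicator_nonneg (fun w _ => bad_nonneg d hP s i k₁ w) w
    refine (Finset.sum_le_sum h6).trans ?_
    rw [Finset.sum_add_distrib, ← Finset.mul_sum, Finset.sum_const, nsmul_eq_mul, Nat.card_Ico]
    have h7 : 0 ≤ a⁻¹ * (e * d.X) := by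
      refine mul_nonneg ha'.le ?_
      refine le_trans ?_ (hRow i₀ (by omega))
      refine Finset.sum_nonneg fun s _ => Finset.sum_nonneg fun w _ => mul_nonneg (hQ0 i₀ w) ?_
      exact Set.indicator_nonneg (fun w _ => bad_nonneg d hP s i₀ k₁ w) w
    have h8 : ((n - i₀ : ℕ) : ℝ) ≤ n := by exact_mod_cast Nat.sub_le n i₀
    have h9 : (0 : ℝ) ≤ S := by positivity
    have h10 := mul_le_mul_of_nonneg_left hTB h9
    have h11 := mul_le_mul_of_nonneg_right h8 h7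
    linarith
  have h12 : 2 / (u * n) * (n * (S * ε₈ + a⁻¹ * (e * d.X))) =
      2 / u * (S * ε₈ + a⁻¹ * (e * d.X)) := by
    field_simp
  rw [← h12]
  exact mul_le_mul_of_nonneg_left h5 (by positivity)

end Pool.M5.NP
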