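import Pool.Agent.H33.M5.N1c
import Pool.Agent.H87.OC.Cost
import Pool.Agent.H26.OC.RWB

/-!
# Prediction lemma N1: heavy rows for the cells of the unknown numbers
-/

set_option autoImplicit false

namespace Pool.M5.NP

open Finset Real
open Pool.Agent.H49.Ent Pool.Agent.H32.Dense Pool.STK Pool.KAF Pool.OC

/-- The times of the pairs of samples are nearly independent of the line. -/
lemma mi_pair {K : ℕ} (d : NDat K) (hP : IsLaw d.P) {ι : ℝ}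
    (h : Pool.KVA.MI d.P d.T d.L (fun _ => ()) ≤ ι * d.X) (i : ℕ) :
    Pool.KVA.MI (Qp d i) (fun w => d.L w.1) (fun w => (d.T w.1, d.T w.2)) (fun _ => ()) ≤
      2 * ι * d.X := by
  have h1 : Pool.KVA.MI d.P d.L d.T (fun _ => ()) ≤ ι * d.X := by
    rw [Pool.OC.mi_comm d.L d.T (fun _ => ()) hP.nonneg]
    exact h
  have hM : Marg d.P d.P (fun ω => ω) := by
    classical
    intro ω
    rw [Finset.sum_eq_single ω]
    · exact if_pos rfl
    · intro b _ hb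
      exact if_neg hb
    · intro h
      exact absurd (Finset.mem_univ ω) h
  have h2 := Pool.OC.cost_add_mi hP hP d.L d.T (fun τ => ⌊(2 : ℝ) ^ i * d.th τ⌋) (fun ω => ω)
    hM (ι * d.X) h1 d.T (fun _ => ()) (by
      intro ω ω' _ _ h
      have h' : d.T ω = d.T ω' := h
      show ⌊(2 : ℝ) ^ i * d.th (d.T ω)⌋ = ⌊(2 : ℝ) ^ i * d.th (d.T ω')⌋
      rw [h'])
  have h3 : Pool.KVA.MI (Qp d i) (fun w => d.L w.1) (fun w => (d.T w.1, d.T w.2))
      (fun _ => ()) ≤ Pool.KVA.MI d.P d.L d.T (fun _ => ()) + ι * d.X := h2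
  linarith

/-- The digit of the cell `s + 1`. -/
noncomputable def dgt {K : ℕ} (d : NDat K) (s : ℕ) (l : d.Lam) : Fin (2 ^ K) :=
  finFunctionFinEquiv fun j => (if cl d (s + 1) l j = 2 * cl d s l j then 0 else 1 : Fin 2)

lemma cl_of_dgt {K : ℕ} (d : NDat K) (s : ℕ) {l l' : d.Lam} (h : cl d s l = cl d s l')
    (h' : dgt d s l = dgt d s l') : cl d (s + 1) l = cl d (s + 1) l' := by
  have h1 := finFunctionFinEquiv.injective h'
  funext j
  have h2 : (if cl d (s + 1) l j = 2 * cl d s l j then 0 else 1 : Fin 2) =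
      (if cl d (s + 1) l' j = 2 * cl d s l' j then 0 else 1 : Fin 2) := congrFun h1 j
  have h3 := congrFun h j
  have h4 := Finset.mem_Ico.1 (cl_mem d s 1 l j)
  have h5 := Finset.mem_Ico.1 (cl_mem d s 1 l' j)
  split_ifs at h2 with h6 h7 h7
  · rw [h6, h7, h3]
  · exact absurd h2 (by decide)
  · exact absurd h2 (by decide)
  · omega

lemma dgt_of_cl {K : ℕ} (d : NDat K) (s : ℕ) {l l' : d.Lam}
    (h : cl d (s + 1) l = cl d (s + 1) l') : dgt d s l = dgt d s l' := by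
  have h1 := cl_anti d (Nat.le_succ s) h
  unfold dgt
  rw [h, h1]

/-- The size of the forms in the cells. -/
lemma form_size {K : ℕ} (d : NDat K) {A : ℕ} (hOK : d.OK A) (s i k : ℕ) (hk : K ^ 2 ≤ 2 ^ k)
    {l l' : d.Lam} (hc : cl d s l = cl d s l') {t₁ t₀ : d.Tau}
    (ht : |d.th t₀ - d.th t₁| ≤ 1 / 2 ^ i) :
    |d.toR.ZR t₁ t₀ (d.v l) - d.toR.ZR t₁ t₀ (d.v l')| ≤ (2 : ℝ) ^ ((k : ℤ) - (s + i)) := by
  have h5 : d.toR.ZR t₁ t₀ (d.v l) - d.toR.ZR t₁ t₀ (d.v l') =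
      ∑ j : Fin K, ((d.v l j : ℝ) / 2 ^ d.X - (d.v l' j : ℝ) / 2 ^ d.X) *
        (d.th t₀ ^ (j.val + 1) - d.th t₁ ^ (j.val + 1)) := by
    show (∑ j : Fin K, ((d.v l j : ℝ) / 2 ^ d.X) *
        (d.th t₀ ^ (j.val + 1) - d.th t₁ ^ (j.val + 1)) + (d.s t₀ - d.s t₁)) -
      (∑ j : Fin K, ((d.v l' j : ℝ) / 2 ^ d.X) *
        (d.th t₀ ^ (j.val + 1) - d.th t₁ ^ (j.val + 1)) + (d.s t₀ - d.s t₁)) = _
    rw [add_sub_add_right_eq_sub, ← Finset.sum_sub_distrib]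
    refine Finset.sum_congr rfl fun j _ => ?_
    ring
  rw [h5]
  have h2 : (0 : ℝ) < 2 := by norm_num
  have hone : ∀ j : Fin K, |((d.v l j : ℝ) / 2 ^ d.X - (d.v l' j : ℝ) / 2 ^ d.X) *
      (d.th t₀ ^ (j.val + 1) - d.th t₁ ^ (j.val + 1))| ≤ K * (1 / 2 ^ s * (1 / 2 ^ i)) := by
    intro j
    rw [abs_mul]
    have h6 := cl_near d hc j
    have h7 : |d.th t₀ ^ (j.val + 1) - d.th t₁ ^ (j.val + 1)| ≤ K * (1 / 2 ^ i) := by
      refine (abs_pow_sub_pow_le ..).trans ?_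
      have h8 : max |d.th t₀| |d.th t₁| ≤ 1 := by
        refine max_le ?_ ?_
        · rw [abs_of_nonneg (hOK.hth _).1]
          exact (hOK.hth _).2.le
        · rw [abs_of_nonneg (hOK.hth _).1]
          exact (hOK.hth _).2.le
      have h9 : max |d.th t₀| |d.th t₁| ^ (j.val + 1 - 1) ≤ 1 :=
        pow_le_one₀ (le_max_of_le_left (abs_nonneg _)) h8
      have h10 : ((j.val + 1 : ℕ) : ℝ) ≤ K := by exact_mod_cast j.2
      calc |d.th t₀ - d.th t₁| * ((j.val + 1 : ℕ) : ℝ) *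
            max |d.th t₀| |d.th t₁| ^ (j.val + 1 - 1) ≤
            |d.th t₀ - d.th t₁| * ((j.val + 1 : ℕ) : ℝ) * 1 :=
            mul_le_mul_of_nonneg_left h9 (by positivity)
        _ ≤ (1 / 2 ^ i) * K * 1 := by gcongr
        _ = K * (1 / 2 ^ i) := by ring
    calc |(d.v l j : ℝ) / 2 ^ d.X - (d.v l' j : ℝ) / 2 ^ d.X| *
          |d.th t₀ ^ (j.val + 1) - d.th t₁ ^ (j.val + 1)| ≤ (1 / 2 ^ s) * (K * (1 / 2 ^ i)) :=
          mul_le_mul h6 h7 (abs_nonneg _) (by positivity)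
      _ = K * (1 / 2 ^ s * (1 / 2 ^ i)) := by ring
  have h6 : |∑ j : Fin K, ((d.v l j : ℝ) / 2 ^ d.X - (d.v l' j : ℝ) / 2 ^ d.X) *
      (d.th t₀ ^ (j.val + 1) - d.th t₁ ^ (j.val + 1))| ≤
      ∑ _j : Fin K, (K : ℝ) * (1 / 2 ^ s * (1 / 2 ^ i)) :=
    (Finset.abs_sum_le_sum_abs _ _).trans (Finset.sum_le_sum fun j _ => hone j)
  refine h6.trans ?_
  rw [Finset.sum_const, Finset.card_univ, Fintype.card_fin, nsmul_eq_mul]
  have h7 : (2 : ℝ) ^ ((k : ℤ) - (s + i)) = 2 ^ k * (1 / 2 ^ s * (1 / 2 ^ i)) := by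
    rw [show (k : ℤ) - (s + i) = (k : ℤ) - ((s + i : ℕ) : ℤ) by push_cast; ring,
      zpow_sub₀ h2.ne', zpow_natCast, zpow_natCast, pow_add]
    field_simp
  rw [h7, ← mul_assoc]
  refine mul_le_mul_of_nonneg_right ?_ (by positivity)
  have h8 : ((K ^ 2 : ℕ) : ℝ) ≤ ((2 ^ k : ℕ) : ℝ) := by exact_mod_cast hk
  push_cast at h8
  nlinarith

lemma rowN {K : ℕ} (d : NDat K) {A : ℕ} (hOK : d.OK A) {ι δ e : ℝ} (hι : 2 * ι ≤ δ)
    (hδ : 0 ≤ δ) (hH1 : Pool.KVA.MI d.P d.T d.L (fun _ => ()) ≤ ι * d.X)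
    (J : d.Om → Set ℕ) (k k₁ : ℕ) (hk : K ^ 2 ≤ 2 ^ k)
    (hRow : d.toR.RowOK J k k₁ (2 ^ K) e δ) (i : ℕ) :
    ∑ s ∈ range d.X, Ex (Qp d i) (Set.indicator {w | s + i ∈ J w.1} (bad d s i k₁)) ≤
      e * d.X := by
  classical
  have hP0 := hOK.law.nonneg
  have hQ0 : ∀ w, 0 ≤ Qp d i w := fun w => dbl_nonneg hP0 w
  have hQ1 : ∑ w, Qp d i w = 1 := by
    have h := (dbl_fst (b := fun ω => (d.L ω, d.Ti i ω)) hP0).sum
    unfold Qp
    rw [h, hOK.law.sum_one]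
  have hQs : ∀ w, 0 < Qp d i w → 0 < d.P w.1 ∧ 0 < d.P w.2 ∧ d.L w.1 = d.L w.2 ∧
      d.Ti i w.1 = d.Ti i w.2 := by
    intro w hw
    have hw' : 0 < glue d.P d.P (fun ω => (d.L ω, d.Ti i ω)) (fun ω => (d.L ω, d.Ti i ω)) w := hw
    obtain ⟨h1, h2, h3⟩ := (glue_pos_iff hP0 hP0 w).1 hw'
    exact ⟨h1, h2, congrArg Prod.fst h3, congrArg Prod.snd h3⟩
  have key := hRow (d.Om × d.Om) Unit (d.Tau × d.Tau) Unit (fun _ => Fin K → ℤ) (Qp d i)
    (fun w => w.1) (fun w => w.2) (fun _ => ()) (fun w => (d.T w.1, d.T w.2)) (fun _ => ())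
    (fun s w => cl d s (d.L w.1)) (fun s w => dgt d s (d.L w.1)) (fun _ => (i : ℤ)) Set.univ
    0 d.X ⟨hQ0, hQ1⟩ ?_ ?_ ?_ ?_ ?_ ?_ ?_ ?_ ?_ ?_ ?_ ?_ le_rfl
  · rw [← Finset.range_eq_Ico] at key
    refine le_trans (le_of_eq ?_) key
    refine Finset.sum_congr rfl fun s _ => ?_
    unfold bad
    rw [show Qp d i = glue d.P d.P (fun ω => (d.L ω, d.Ti i ω)) (fun ω => (d.L ω, d.Ti i ω))
      from rfl]
    rw [Pool.OC.RWB.ex_dbl hP0 hP0 (fun _ => rfl)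
      (fun w : d.Om × d.Om => ((), (), cl d s (d.L w.1))) (fun v => cl d s (d.L v)) ?_ _
      (fun w v => (2 : ℝ) ^ (-((s : ℤ) + i + k₁)) ≤
        |d.toR.ZR (d.T w.1) (d.T w.2) (d.v (d.L w.1)) -
          d.toR.ZR (d.T w.1) (d.T w.2) (d.v (d.L v))|)]
    · refine Pool.OC.RWB.Pr_congr (glue_nonneg hQ0 hQ0) fun z hz => ?_
      have h1 : (0 : ℤ) ≤ (s : ℤ) + i := by positivity
      have h2 : ((s : ℤ) + i).toNat = s + i := by omega
      show (s + i ∈ J z.1.1 ∧ _) ↔ (z.1 ∈ Set.univ ∧ 0 ≤ (s : ℤ) + i ∧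
        ((s : ℤ) + i).toNat ∈ J z.1.1 ∧ _)
      rw [h2]
      simp only [Set.mem_univ, true_and]
      constructor
      · rintro ⟨a, b⟩
        exact ⟨h1, a, b⟩
      · rintro ⟨-, a, b⟩
        exact ⟨a, b⟩
    · intro w w' _ _
      simp only [Prod.mk.injEq, true_and]
  · intro ω
    exact dbl_fst (b := fun ω => (d.L ω, d.Ti i ω)) hP0 ω
  · intro ω
    exact dbl_snd (b := fun ω => (d.L ω, d.Ti i ω)) hP0 ω
  · intro w hw
    exact (hQs w hw).2.2.1.symm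
  · intro w w' _ _ h
    have h' : (d.T w.1, d.T w.2) = (d.T w'.1, d.T w'.2) := h
    simp only [Prod.mk.injEq] at h'
    show ((), d.T w.1, d.T w.2) = ((), d.T w'.1, d.T w'.2)
    rw [h'.1, h'.2]
  · refine (mi_pair d hOK.law hH1 i).trans ?_
    exact mul_le_mul_of_nonneg_right hι (Nat.cast_nonneg _)
  · intro w w' _ _ _
    rfl
  · rw [CH_eq_zero hQ0 fun _ _ _ _ _ => rfl]
    exact mul_nonneg hδ (Nat.cast_nonneg _)
  · intro s _ w w' _ _ h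
    have h' : d.v (d.L w.1) = d.v (d.L w'.1) := by
      have h2 : ((), (), d.v (d.L w.1)) = ((), (), d.v (d.L w'.1)) := h
      simpa using h2
    show cl d s (d.L w.1) = cl d s (d.L w'.1)
    unfold cl
    rw [h']
  · intro s _ w w' _ _ h
    have h' : (cl d s (d.L w.1), dgt d s (d.L w.1)) = (cl d s (d.L w'.1), dgt d s (d.L w'.1)) := h
    simp only [Prod.mk.injEq] at h'
    exact cl_of_dgt d s h'.1 h'.2
  · intro s _ w w' _ _ h
    have h' : cl d (s + 1) (d.L w.1) = cl d (s + 1) (d.L w'.1) := h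
    show (cl d s (d.L w.1), dgt d s (d.L w.1)) = (cl d s (d.L w'.1), dgt d s (d.L w'.1))
    rw [cl_anti d (Nat.le_succ s) h', dgt_of_cl d s h']
  · intro s _ w w' _ _ _
    rfl
  · intro s w w' _ hw _ _ _ _ hc
    refine form_size d hOK s i k hk hc ?_
    have h1 := (hQs w hw).2.2.2
    unfold NDat.Ti at h1
    have e1 := Int.floor_le ((2 : ℝ) ^ i * d.th (d.T w.1))
    have e2 := Int.lt_floor_add_one ((2 : ℝ) ^ i * d.th (d.T w.1))
    have e3 := Int.floor_le ((2 : ℝ) ^ i * d.th (d.T w.2))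
    have e4 := Int.lt_floor_add_one ((2 : ℝ) ^ i * d.th (d.T w.2))
    rw [h1] at e1 e2
    have hpos : (0 : ℝ) < 2 ^ i := by positivity
    show |d.th (d.T w.2) - d.th (d.T w.1)| ≤ 1 / 2 ^ i
    rw [le_div_iff₀ hpos, ← abs_of_pos hpos, ← abs_mul, abs_le]
    constructor <;> nlinarith

end Pool.M5.NP
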