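import Pool.Agent.H33.M5.N1e

/-!
# Prediction lemma N1: the telescope
-/

set_option autoImplicit false

namespace Pool.M5.NP

open Finset Real
open Pool.Agent.H49.Ent Pool.Agent.H32.Dense Pool.STK Pool.KAF Pool.OC

variable {K : ℕ} (d : NDat K)

/-- The entropy of the digits to the scale `s`. -/
noncomputable def Hc (s : ℕ) : ℝ := H d.P (fun ω => cl d s (d.L ω))

lemma ch_eq (hP : IsLaw d.P) (s r : ℕ) :
    CH d.P (fun ω => cl d (s + r) (d.L ω)) (fun ω => cl d s (d.L ω)) = Hc d (s + r) - Hc d s := by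
  unfold CH Hc
  rw [H_congr hP.nonneg (X := fun ω => cl d (s + r) (d.L ω))
    (Y := fun ω => (cl d (s + r) (d.L ω), cl d s (d.L ω)))
    (fun ω ω' _ _ h => by
      have h' : cl d (s + r) (d.L ω) = cl d (s + r) (d.L ω') := h
      show (cl d (s + r) (d.L ω), cl d s (d.L ω)) = (cl d (s + r) (d.L ω'), cl d s (d.L ω'))
      rw [h', cl_anti d (Nat.le_add_right s r) h'])
    (fun ω ω' _ _ h => (Prod.ext_iff.mp h).1)]

lemma Hc_step (hP : IsLaw d.P) (s r : ℕ) : Hc d (s + r) ≤ Hc d s + K * (r * Real.log 2) := by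
  classical
  have h1 := CH_le_card hP.nonneg hP.sum_one (fun ω => cl d (s + r) (d.L ω))
    (fun ω => cl d s (d.L ω))
    (fun g => Fintype.piFinset fun j => Finset.Ico (2 ^ r * g j) (2 ^ r * (g j + 1)))
    (by
      intro ω _
      rw [Fintype.mem_piFinset]
      intro j
      exact cl_mem d s r (d.L ω) j)
  have h2 : (fun ω : d.Om => Real.log (((Fintype.piFinset fun j =>
      Finset.Ico (2 ^ r * cl d s (d.L ω) j) (2 ^ r * (cl d s (d.L ω) j + 1))).card : ℕ) : ℝ)) =
      fun _ => K * (r * Real.log 2) := by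
    funext ω
    rw [Fintype.card_piFinset]
    have : ∀ j : Fin K, (Finset.Ico (2 ^ r * cl d s (d.L ω) j)
        (2 ^ r * (cl d s (d.L ω) j + 1))).card = 2 ^ r := by
      intro j
      rw [Int.card_Ico]
      have e : (2 ^ r * (cl d s (d.L ω) j + 1) - 2 ^ r * cl d s (d.L ω) j : ℤ) =
          ((2 ^ r : ℕ) : ℤ) := by
        push_cast
        ring
      rw [e, Int.toNat_natCast]
    rw [Finset.prod_congr rfl fun j _ => this j, Finset.prod_const, Finset.card_univ,
      Fintype.card_fin]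
    push_cast
    rw [Real.log_pow, Real.log_pow]
  rw [h2, Ex_const hP.sum_one, ch_eq d hP] at h1
  linarith

lemma Hc_base {A : ℕ} (hOK : d.OK A) (s : ℕ) : Hc d s ≤ K * ((s + 2) * Real.log 2) := by
  classical
  have h1 := H_le_log_card hOK.law.nonneg hOK.law.sum_one (fun ω => cl d s (d.L ω))
    (Fintype.piFinset fun _ => Finset.Icc (-(2 ^ s : ℤ)) (2 ^ s))
    (by
      intro ω _
      rw [Fintype.mem_piFinset]
      intro j
      have h := abs_le.1 (hOK.hv (d.L ω) j)
      have hpos : (0 : ℝ) < 2 ^ s := by positivity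
      rw [Finset.mem_Icc]
      unfold cl
      constructor
      · rw [Int.le_floor]
        push_cast
        nlinarith
      · have h2 := Int.floor_le ((2 : ℝ) ^ s * ((d.v (d.L ω) j : ℝ) / 2 ^ d.X))
        have h3 : ((⌊(2 : ℝ) ^ s * ((d.v (d.L ω) j : ℝ) / 2 ^ d.X)⌋ : ℤ) : ℝ) ≤
            ((2 ^ s : ℤ) : ℝ) := by
          push_cast
          nlinarith
        exact_mod_cast h3)
  unfold Hc
  refine h1.trans ?_
  rw [Fintype.card_piFinset, Finset.prod_const, Finset.card_univ, Fintype.card_fin, Int.card_Icc]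
  push_cast
  rw [Real.log_pow]
  refine mul_le_mul_of_nonneg_left ?_ (Nat.cast_nonneg _)
  have h2 : (((2 ^ s + 1 - -(2 ^ s) : ℤ).toNat : ℕ) : ℝ) ≤ 2 ^ (s + 2) := by
    have h3 : ((2 ^ s + 1 - -(2 ^ s) : ℤ).toNat : ℤ) ≤ 2 ^ (s + 2) := by
      have h4 : (1 : ℤ) ≤ 2 ^ s := one_le_pow₀ (by norm_num)
      rw [Int.toNat_of_nonneg (by linarith), pow_add]
      linarith
    exact_mod_cast h3
  have h3 : (0 : ℝ) < (((2 ^ s + 1 - -(2 ^ s) : ℤ).toNat : ℕ) : ℝ) := by
    have h4 : (1 : ℤ) ≤ 2 ^ s := one_le_pow₀ (by norm_num)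
    have h5 : 0 < (2 ^ s + 1 - -(2 ^ s) : ℤ).toNat := by
      rw [Int.lt_toNat]
      push_cast
      linarith
    exact_mod_cast h5
  refine (Real.log_le_log h3 h2).trans (le_of_eq ?_)
  rw [Real.log_pow]
  push_cast
  rfl

lemma Hc_top : Hc d d.X = H d.P (fun ω => d.v (d.L ω)) := by
  unfold Hc
  congr 1
  funext ω
  funext j
  unfold cl
  have h : (2 : ℝ) ^ d.X * ((d.v (d.L ω) j : ℝ) / 2 ^ d.X) = (d.v (d.L ω) j : ℝ) := by
    field_simp
  rw [h, Int.floor_intCast]

/-- The telescope over the offsets. -/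
lemma tele {A : ℕ} (hOK : d.OK A) {r₀ M R : ℕ} (hr : 1 ≤ r₀) (hM : M * r₀ + r₀ ≤ d.X)
    (hR : d.X ≤ M * r₀ + R) {a : ℝ} (ha : 0 ≤ a) :
    H d.P (fun ω => d.v (d.L ω)) ≤ K * ((r₀ + 2) * Real.log 2) + K * (R * Real.log 2) +
      M * (Real.log 2 + K * Real.log 3 + a * (K * (r₀ * Real.log 2))) +
      K * Real.log 2 * ∑ s ∈ range (M * r₀), Pr d.P {ω | ¬ Gd d s r₀ a ω} := by
  have hP := hOK.law
  have hl2 : 0 < Real.log 2 := Real.log_pos (by norm_num)
  have hr0 : (0 : ℝ) < r₀ := by exact_mod_cast hr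
  set g : ℕ → ℝ := fun s => Pr d.P {ω | ¬ Gd d s r₀ a ω} with hg
  have hone : ∀ ρ ∈ range r₀, H d.P (fun ω => d.v (d.L ω)) ≤
      K * ((r₀ + 2) * Real.log 2) + K * (R * Real.log 2) +
      M * (Real.log 2 + K * Real.log 3 + a * (K * (r₀ * Real.log 2))) +
      (K * (r₀ * Real.log 2)) * ∑ j ∈ range M, g (ρ + j * r₀) := by
    intro ρ hρ
    have hρ' := Finset.mem_range.1 hρ
    have h1 : Hc d d.X ≤ Hc d (ρ + M * r₀) + K * (R * Real.log 2) := by
      have h2 := Hc_step d hP (ρ + M * r₀) (d.X - (ρ + M * r₀))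
      rw [Nat.add_sub_cancel' (by omega)] at h2
      refine h2.trans (add_le_add_right ?_ _)
      refine mul_le_mul_of_nonneg_left (mul_le_mul_of_nonneg_right ?_ hl2.le) (Nat.cast_nonneg _)
      have h3 : d.X - (ρ + M * r₀) ≤ R := by omega
      exact_mod_cast h3
    have h2 : ∀ m : ℕ, Hc d (ρ + m * r₀) ≤ Hc d ρ + ∑ j ∈ range m,
        (Real.log 2 + K * Real.log 3 + (a + g (ρ + j * r₀)) * (K * (r₀ * Real.log 2))) := by
      intro m
      induction m with
      | zero => simp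
      | succ m ih =>
        rw [Finset.sum_range_succ]
        have h3 := step d hP (ρ + m * r₀) r₀ ha
        rw [ch_eq d hP] at h3
        have h4 : ρ + (m + 1) * r₀ = ρ + m * r₀ + r₀ := by ring
        rw [h4]
        have h5 : g (ρ + m * r₀) = Pr d.P {ω | ¬ Gd d (ρ + m * r₀) r₀ a ω} := rfl
        rw [h5]
        linarith
    have h3 := h2 M
    have h4 := Hc_base d hOK ρ
    have h5 : (K : ℝ) * ((ρ + 2) * Real.log 2) ≤ K * ((r₀ + 2) * Real.log 2) := by
      refine mul_le_mul_of_nonneg_left (mul_le_mul_of_nonneg_right ?_ hl2.le) (Nat.cast_nonneg _)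
      have : (ρ : ℝ) ≤ r₀ := by exact_mod_cast hρ'.le
      linarith
    have h6 : ∑ j ∈ range M,
        (Real.log 2 + K * Real.log 3 + (a + g (ρ + j * r₀)) * (K * (r₀ * Real.log 2))) =
        M * (Real.log 2 + K * Real.log 3 + a * (K * (r₀ * Real.log 2))) +
        (K * (r₀ * Real.log 2)) * ∑ j ∈ range M, g (ρ + j * r₀) := by
      rw [Finset.mul_sum, Finset.sum_congr rfl fun j _ => show
        Real.log 2 + K * Real.log 3 + (a + g (ρ + j * r₀)) * (K * (r₀ * Real.log 2)) =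
        (Real.log 2 + K * Real.log 3 + a * (K * (r₀ * Real.log 2))) +
          (K * (r₀ * Real.log 2)) * g (ρ + j * r₀) by ring]
      rw [Finset.sum_add_distrib, Finset.sum_const, Finset.card_range, nsmul_eq_mul]
    rw [← Hc_top]
    linarith
  have hsum := Finset.sum_le_sum hone
  rw [Finset.sum_const, Finset.card_range, nsmul_eq_mul, Finset.sum_add_distrib,
    Finset.sum_const, Finset.card_range, nsmul_eq_mul, ← Finset.mul_sum,
    ← sum_range_mul g r₀ M] at hsum
  have h7 : (K * (r₀ * Real.log 2)) * ∑ s ∈ range (M * r₀), g s =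
      r₀ * (K * Real.log 2 * ∑ s ∈ range (M * r₀), g s) := by ring
  rw [h7, ← mul_add] at hsum
  exact le_of_mul_le_mul_left hsum hr0

end Pool.M5.NP
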