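import Pool.Agent.H31.M5.H2
import Pool.Agent.H70.K2.AVG

/-!
# The path of windows at one fixed pair: pure part

`b i` are the records of the windows `i = 0, …, n` (growing windows), `cs i` is the coarse record,
`f i` the fine digits of the shape, `V i` the fine digits of the heights, `u i` the rows of the
normal position, `t` the time.
-/

set_option autoImplicit false

namespace Pool.M5.PTH

open Finset Real
open Pool.Agent.H49.Ent Pool.Agent.H32.Dense Pool.KVA

variable {Ω τ : Type} [Fintype Ω] {β γ φ υ ν : ℕ → Type}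

/-- One more link of a chain of records. -/
theorem link {B₀ B B' T : Type} {p : Ω → ℝ} (hp : ∀ ω, 0 ≤ p ω) (b₀ : Ω → B₀) (b : Ω → B)
    (b' : Ω → B') (t : Ω → T) : CH p b' (fun ω => (b₀ ω, t ω)) ≤
      CH p b (fun ω => (b₀ ω, t ω)) + CH p b' (fun ω => (b ω, (b₀ ω, t ω))) := by
  have h1 := CH_chain hp b' b (fun ω => (b₀ ω, t ω))
  have h2 : CH p b' (fun ω => (b₀ ω, t ω)) ≤
      CH p (fun ω => (b' ω, b ω)) (fun ω => (b₀ ω, t ω)) := by
    have h3 := CH_chain hp b b' (fun ω => (b₀ ω, t ω))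
    have h4 : CH p (fun ω => (b ω, b' ω)) (fun ω => (b₀ ω, t ω)) =
        CH p (fun ω => (b' ω, b ω)) (fun ω => (b₀ ω, t ω)) := by
      refine CH_congr hp ?_ ?_ (fun _ _ _ _ h => h) (fun _ _ _ _ h => h) <;>
      · intro ω ω' _ _ h
        simp only [Prod.mk.injEq] at h ⊢
        tauto
    have h5 := CH_nonneg hp b (fun ω => (b' ω, (b₀ ω, t ω)))
    linarith
  linarith

/-- The step of the path: the record of the next window. -/
theorem pstep {B₀ B B' C Φ N T : Type} {p : Ω → ℝ} (hp : ∀ ω, 0 ≤ p ω) (b₀ : Ω → B₀) (b : Ω → B)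
    (b' : Ω → B') (cs : Ω → C) (f : Ω → Φ) (V : Ω → N) (t : Ω → T) {e : ℝ}
    (ha : CH p cs (fun ω => (b ω, t ω)) ≤ e)
    (hb : CH p b' (fun ω => (V ω, (f ω, (cs ω, (b₀ ω, t ω))))) ≤ e) :
    CH p b' (fun ω => (b ω, (b₀ ω, t ω))) ≤ 2 * e + CH p f cs + CH p V (fun ω => (cs ω, f ω)) := by
  have h1 := CH_cond_le hp b' cs (fun ω => (b ω, (b₀ ω, t ω)))
  have h2 := CH_cond_le hp b' f (fun ω => (cs ω, (b ω, (b₀ ω, t ω))))
  have h3 := CH_cond_le hp b' V (fun ω => (f ω, (cs ω, (b ω, (b₀ ω, t ω)))))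
  have h4 : CH p b' (fun ω => (V ω, (f ω, (cs ω, (b ω, (b₀ ω, t ω)))))) ≤
      CH p b' (fun ω => (V ω, (f ω, (cs ω, (b₀ ω, t ω))))) := by
    refine CH_mono_cond hp ?_
    intro ω ω' _ _ h
    simp only [Prod.mk.injEq] at h ⊢
    tauto
  have h5 : CH p cs (fun ω => (b ω, (b₀ ω, t ω))) ≤ CH p cs (fun ω => (b ω, t ω)) := by
    refine CH_mono_cond hp ?_
    intro ω ω' _ _ h
    simp only [Prod.mk.injEq] at h ⊢
    tauto
  have h6 : CH p f (fun ω => (cs ω, (b ω, (b₀ ω, t ω)))) ≤ CH p f cs := by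
    refine CH_mono_cond hp ?_
    intro ω ω' _ _ h
    simp only [Prod.mk.injEq] at h ⊢
    tauto
  have h7 : CH p V (fun ω => (f ω, (cs ω, (b ω, (b₀ ω, t ω))))) ≤
      CH p V (fun ω => (cs ω, f ω)) := by
    refine CH_mono_cond hp ?_
    intro ω ω' _ _ h
    simp only [Prod.mk.injEq] at h ⊢
    tauto
  linarith

/-- **The path.** The steps `i + 1` with `i ∉ Bad` have small shape entropy, and small height
entropy if the mutual information with the rows is small. -/
theorem path {p : Ω → ℝ} (hp : ∀ ω, 0 ≤ p ω) (b : ∀ i, Ω → β i) (cs : ∀ i, Ω → γ i)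
    (f : ∀ i, Ω → φ i) (V : ∀ i, Ω → ν i) (u : ∀ i, Ω → υ i) (t : Ω → τ) {n K : ℕ}
    (Bad : Finset ℕ) {e y Y L m : ℝ} (he : 0 ≤ e) (hy : 0 ≤ y) (hY : 0 ≤ Y) (hm : 0 < m)
    (hcs : ∀ i < n, CH p (cs (i + 1)) (fun ω => (b i ω, t ω)) ≤ e)
    (hbb : ∀ i < n, CH p (b (i + 1)) (fun ω => (V (i + 1) ω, (f (i + 1) ω,
      (cs (i + 1) ω, (b 0 ω, t ω))))) ≤ e)
    (hC : ∀ i < n, CH p (fun ω => (cs i ω, f i ω))
      (fun ω => ((cs (i + 1) ω, f (i + 1) ω), t ω)) ≤ e)
    (hu : ∀ i < n, CH p (u (i + 1)) (fun ω => (u i ω, ((cs (i + 1) ω, f (i + 1) ω), t ω))) ≤ e)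
    (hV : ∀ i, i + K ≤ n → CH p (V i) (fun ω => ((cs (i + K) ω, f (i + K) ω),
      ((cs i ω, f i ω), t ω))) ≤ e)
    (hL : ∀ i, CH p (u i) (fun ω => ((cs i ω, f i ω), t ω)) ≤ L)
    (hf : ∀ i, 1 ≤ i → i ≤ n → CH p (f i) (cs i) ≤ Y)
    (hf' : ∀ i, 1 ≤ i → i ≤ n → i ∉ Bad → CH p (f i) (cs i) ≤ y)
    (hv : ∀ i, 1 ≤ i → i ≤ n → CH p (V i) (fun ω => (cs i ω, f i ω)) ≤ Y)
    (hv' : ∀ i, 1 ≤ i → i ≤ n → i ∉ Bad →
      MI p (u i) (V i) (fun ω => ((cs i ω, f i ω), t ω)) ≤ m →
      CH p (V i) (fun ω => (cs i ω, f i ω)) ≤ y) :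
    CH p (b n) (fun ω => (b 0 ω, t ω)) ≤ n * (2 * e + 2 * y) +
      2 * Y * (Bad.card + (K + 1) + (K * L + n * ((3 * K + 1) * e)) / m) := by
  classical
  -- the mutual informations
  have hMI : ∀ i, i + K ≤ n → MI p (u i) (V i) (fun ω => ((cs i ω, f i ω), t ω)) ≤
      MI p (u i) (fun ω => (cs (i + K) ω, f (i + K) ω)) (fun ω => ((cs i ω, f i ω), t ω)) + e := by
    intro i hi
    rw [Pool.M5.MI_eq hp, Pool.M5.MI_eq hp]
    have h1 := CH_cond_le hp (u i) (V i) (fun ω => ((cs (i + K) ω, f (i + K) ω),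
      ((cs i ω, f i ω), t ω)))
    have h2 := hV i hi
    have h3 : CH p (u i) (fun ω => (V i ω, ((cs (i + K) ω, f (i + K) ω),
        ((cs i ω, f i ω), t ω)))) ≤ CH p (u i) (fun ω => (V i ω, ((cs i ω, f i ω), t ω))) := by
      refine CH_mono_cond hp ?_
      intro ω ω' _ _ h
      simp only [Prod.mk.injEq] at h ⊢
      tauto
    linarith
  have hL0 : 0 ≤ L := (CH_nonneg hp _ _).trans (hL 0)
  set x : ℕ → ℝ := fun i => MI p (u i) (V i) (fun ω => ((cs i ω, f i ω), t ω)) with hx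
  have hx0 : ∀ i, 0 ≤ x i := fun i => Pool.M5.MI_nonneg hp _ _ _
  have hsum : ∑ i ∈ range (n - K), x i ≤ K * L + n * ((3 * K + 1) * e) := by
    by_cases hKn : K ≤ n
    · have h1 := Pool.M5.sum_far hp (fun i ω => (cs i ω, f i ω)) u t hC hu hL K (n - K)
        (by omega)
      have h2 : ∑ i ∈ range (n - K), x i ≤ ∑ i ∈ range (n - K),
          (MI p (u i) (fun ω => (cs (i + K) ω, f (i + K) ω)) (fun ω => ((cs i ω, f i ω), t ω)) +
            e) := Finset.sum_le_sum fun i hi => hMI i (by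
              rw [Finset.mem_range] at hi
              omega)
      rw [Finset.sum_add_distrib, Finset.sum_const, card_range, nsmul_eq_mul] at h2
      have h3 : ((n - K : ℕ) : ℝ) ≤ n := by exact_mod_cast Nat.sub_le n K
      have h4 : ((n - K : ℕ) : ℝ) * ((K : ℝ) * (2 * e + e)) + ((n - K : ℕ) : ℝ) * e ≤
          n * ((3 * K + 1) * e) := by
        have h5 : ((n - K : ℕ) : ℝ) * ((K : ℝ) * (2 * e + e)) + ((n - K : ℕ) : ℝ) * e =
          ((n - K : ℕ) : ℝ) * ((3 * K + 1) * e) := by ring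
        rw [h5]
        exact mul_le_mul_of_nonneg_right h3 (by positivity)
      linarith
    · rw [show n - K = 0 by omega]
      simp only [Finset.range_zero, Finset.sum_empty]
      positivity
  set S : ℝ := K * L + n * ((3 * K + 1) * e) with hS
  set B1 : Finset ℕ := (range (n - K)).filter fun i => m < x i with hB1
  have hB1c : (B1.card : ℝ) ≤ S / m := by
    rw [le_div_iff₀ hm]
    have h1 : ∑ i ∈ B1, m ≤ ∑ i ∈ B1, x i :=
      Finset.sum_le_sum fun i hi => (Finset.mem_filter.1 hi).2.le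
    rw [Finset.sum_const, nsmul_eq_mul] at h1
    have h2 : ∑ i ∈ B1, x i ≤ ∑ i ∈ range (n - K), x i :=
      Finset.sum_le_sum_of_subset_of_nonneg (Finset.filter_subset _ _) fun i _ _ => hx0 i
    linarith
  set B2 : Finset ℕ := Finset.Icc (n - K) n with hB2
  have hB2c : (B2.card : ℝ) ≤ K + 1 := by
    have h1 : B2.card ≤ K + 1 := by
      rw [hB2, Nat.card_Icc]
      omega
    exact_mod_cast h1
  set BB : Finset ℕ := Bad ∪ B1 ∪ B2 with hBB
  have hBBc : (BB.card : ℝ) ≤ Bad.card + (K + 1) + S / m := by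
    have h1 : BB.card ≤ Bad.card + B1.card + B2.card :=
      (Finset.card_union_le _ _).trans (Nat.add_le_add_right (Finset.card_union_le _ _) _)
    have h2 : (BB.card : ℝ) ≤ ((Bad.card + B1.card + B2.card : ℕ) : ℝ) := by exact_mod_cast h1
    push_cast at h2
    linarith
  -- one step
  have hstep : ∀ i < n, CH p (b (i + 1)) (fun ω => (b i ω, (b 0 ω, t ω))) ≤
      2 * e + 2 * y + (if i + 1 ∈ BB then 2 * Y else 0) := by
    intro i hi
    have h1 := pstep hp (b 0) (b i) (b (i + 1)) (cs (i + 1)) (f (i + 1)) (V (i + 1)) t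
      (hcs i hi) (hbb i hi)
    by_cases hb : i + 1 ∈ BB
    · rw [if_pos hb]
      have h2 := hf (i + 1) (by omega) (by omega)
      have h3 := hv (i + 1) (by omega) (by omega)
      linarith
    · rw [if_neg hb]
      have n1 : i + 1 ∉ Bad := fun h => hb (by
        rw [hBB]
        exact Finset.mem_union_left _ (Finset.mem_union_left _ h))
      have n2 : i + 1 ∉ B1 := fun h => hb (by
        rw [hBB]
        exact Finset.mem_union_left _ (Finset.mem_union_right _ h))
      have n3 : i + 1 ∉ B2 := fun h => hb (by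
        rw [hBB]
        exact Finset.mem_union_right _ h)
      have h4 : i + 1 < n - K := by
        by_contra hcon
        exact n3 (Finset.mem_Icc.2 ⟨not_lt.1 hcon, by omega⟩)
      have h5 : x (i + 1) ≤ m := by
        by_contra hcon
        exact n2 (Finset.mem_filter.2 ⟨Finset.mem_range.2 h4, not_le.1 hcon⟩)
      have h2 := hf' (i + 1) (by omega) (by omega) n1
      have h3 := hv' (i + 1) (by omega) (by omega) n1 h5
      linarith
  -- the chain
  have hch : ∀ k, k ≤ n → CH p (b k) (fun ω => (b 0 ω, t ω)) ≤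
      k * (2 * e + 2 * y) + ∑ i ∈ range k, (if i + 1 ∈ BB then 2 * Y else 0) := by
    intro k
    induction k with
    | zero =>
      intro _
      have h1 : CH p (b 0) (fun ω => (b 0 ω, t ω)) = 0 :=
        CH_eq_zero hp (fun ω ω' _ _ h => (Prod.ext_iff.1 h).1)
      rw [h1]
      simp
    | succ k ih =>
      intro hk
      have h1 := link hp (b 0) (b k) (b (k + 1)) t
      have h2 := ih (by omega)
      have h3 := hstep k (by omega)
      rw [Finset.sum_range_succ]
      push_cast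
      linarith
  refine (hch n le_rfl).trans ?_
  have hcount : ∑ i ∈ range n, (if i + 1 ∈ BB then 2 * Y else 0) ≤ 2 * Y * BB.card := by
    rw [← Finset.sum_filter, Finset.sum_const, nsmul_eq_mul, mul_comm]
    refine mul_le_mul_of_nonneg_left ?_ (by positivity)
    have h1 : ((range n).filter fun i => i + 1 ∈ BB).card ≤ BB.card := by
      refine Finset.card_le_card_of_injOn (fun i => i + 1)
        (fun i hi => (Finset.mem_filter.1 hi).2) ?_
      intro i _ j _ h
      exact Nat.succ_injective h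
    exact_mod_cast h1
  have h9 := mul_le_mul_of_nonneg_left hBBc (show 0 ≤ 2 * Y by positivity)
  linarith

end Pool.M5.PTH
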